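import Pool.Agent.Work.MP_8bc176_co.Hex2

set_option autoImplicit false

/-!
The vertices of the hexagon.
-/

namespace Pool.Agent.Work.MP_8bc176_co.Hex

open MeasureTheory Filter Topology Set

theorem interior_ne {D : Finset (E 2)} (h : IsSimplex D) :
    (interior (convexHull ℝ (D : Set (E 2)))).Nonempty := by
  rw [interior_convexHull_nonempty_iff_affineSpan_eq_top]
  have h2 := h.2.affineSpan_eq_top_iff_card_eq_finrank_add_one
  have h3 : Set.range (fun x : D => (x : E 2)) = (D : Set (E 2)) := Subtype.range_coe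
  rw [h3] at h2
  rw [h2]
  simp [h.1]

theorem hull_eq {D : Finset (E 2)} (h : IsSimplex D) :
    closure (interior (convexHull ℝ (D : Set (E 2)))) = convexHull ℝ (D : Set (E 2)) := by
  rw [(convex_convexHull ℝ _).closure_interior_eq_closure_of_nonempty_interior (interior_ne h)]
  exact (D.finite_toSet.isCompact_convexHull ℝ).isClosed.closure_eq

theorem diss_eq {K : Finset (Finset (E 2))} (hK : ∀ D ∈ K, IsSimplex D) :
    closure (⋃ D ∈ K, interior (convexHull ℝ (D : Set (E 2)))) =
      ⋃ D ∈ K, convexHull ℝ (D : Set (E 2)) := by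
  rw [Finset.closure_biUnion]
  exact Set.iUnion₂_congr fun D hD => hull_eq (hK D hD)

theorem epi_convex : Convex ℝ {x : E 2 | x 0 ^ 2 ≤ x 1} := by
  intro x hx y hy s t hs ht hst
  simp only [Set.mem_ofPred_eq, PiLp.add_apply, PiLp.smul_apply, smul_eq_mul] at *
  have e : (s * x 0 + t * y 0) ^ 2 = s * x 0 ^ 2 + t * y 0 ^ 2 - s * t * (x 0 - y 0) ^ 2 := by
    have ht' : t = 1 - s := by linarith
    rw [ht']; ring
  have h1 := mul_nonneg (mul_nonneg hs ht) (sq_nonneg (x 0 - y 0))
  have h2 := mul_le_mul_of_nonneg_left hx hs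
  have h3 := mul_le_mul_of_nonneg_left hy ht
  linarith

theorem Hx_epi {x : E 2} (hx : x ∈ Hx) : x 0 ^ 2 ≤ x 1 := by
  have : Hx ⊆ {x : E 2 | x 0 ^ 2 ≤ x 1} := convexHull_min (by
      intro y hy
      simp only [mem_insert_iff, mem_singleton_iff] at hy
      rcases hy with rfl | rfl | rfl | rfl | rfl | rfl <;> simp) epi_convex
  exact this hx

theorem ext_pt {t : ℝ} (h : pt t ∈ Hx) : pt t ∈ Hx.extremePoints ℝ := by
  have key : ∀ x ∈ Hx, 0 ≤ L t t x ∧ (L t t x = 0 → x = pt t) := by
    intro x hx
    have h1 := Hx_epi hx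
    have h2 : L t t x = x 1 - x 0 ^ 2 + (x 0 - t) ^ 2 := by unfold L; ring
    have h3 := sq_nonneg (x 0 - t)
    refine ⟨by linarith, fun h4 => ?_⟩
    have h5 : (x 0 - t) ^ 2 = 0 := by linarith
    have h6 : x 0 = t := by
      have := pow_eq_zero_iff (two_ne_zero) |>.1 h5
      linarith
    have h7 : x 1 = t ^ 2 := by
      have : x 1 = x 0 ^ 2 := by linarith
      rw [this, h6]
    ext n
    fin_cases n
    · simp [h6]
    · simp [h7]
  refine ⟨h, ?_⟩
  intro x hx y hy hseg
  obtain ⟨a, b, ha, hb, hab, he⟩ := hseg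
  have h1 : L t t (pt t) = a * L t t x + b * L t t y := by
    rw [← he]
    have e : t * t = a * (t * t) + b * (t * t) := by rw [← add_mul, hab, one_mul]
    unfold L
    simp only [PiLp.add_apply, PiLp.smul_apply, smul_eq_mul]
    linear_combination e
  rw [L_pt] at h1
  have h2 := mul_nonneg ha.le (key x hx).1
  have h3 := mul_nonneg hb.le (key y hy).1
  have h4 : a * L t t x = 0 := by linarith
  exact (key x hx).2 ((mul_eq_zero.1 h4).resolve_left ha.ne')

/-- the six points -/
def S6 : Set (E 2) := {pt 0, pt 1, pt 2, pt 3, pt 4, pt 5}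

theorem Hx_def : Hx = convexHull ℝ S6 := rfl

theorem disj_of_line {A B : Set (E 2)} (a b : ℝ) (h : ∀ x, x ∈ A → x ∈ B → L a b x = 0) :
    Disjoint (interior A) (interior B) := by
  rw [Set.disjoint_iff_inter_eq_empty]
  by_contra hne
  have ho : IsOpen (interior A ∩ interior B) := isOpen_interior.inter isOpen_interior
  have h1 := ho.measure_pos volume (Set.nonempty_iff_ne_empty.2 hne)
  have h2 : volume (interior A ∩ interior B) = 0 :=
    measure_mono_null (fun x hx => h x (interior_subset hx.1) (interior_subset hx.2))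
      (line_null a b)
  rw [h2] at h1
  exact lt_irrefl _ h1

open Classical in
/-- the fan -/
noncomputable def K0 : Finset (Finset (E 2)) := {tri 0 1 2, tri 0 2 3, tri 0 3 4, tri 0 4 5}

theorem K0_diss : IsDissection Hx K0 := by
  have n01 : (0 : ℝ) < 1 := by norm_num
  have n12 : (1 : ℝ) < 2 := by norm_num
  have n23 : (2 : ℝ) < 3 := by norm_num
  have n34 : (3 : ℝ) < 4 := by norm_num
  have n45 : (4 : ℝ) < 5 := by norm_num
  have n02 : (0 : ℝ) < 2 := by norm_num
  have n03 : (0 : ℝ) < 3 := by norm_num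
  have n04 : (0 : ℝ) < 4 := by norm_num
  have hs : ∀ D ∈ K0, IsSimplex D := by
    intro D hD
    simp only [K0, Finset.mem_insert, Finset.mem_singleton] at hD
    rcases hD with rfl | rfl | rfl | rfl
    · exact isSimplex_tri n01 n12
    · exact isSimplex_tri n02 n23
    · exact isSimplex_tri n03 n34
    · exact isSimplex_tri n04 n45
  have d12 : Disjoint (interior (T 0 1 2)) (interior (T 0 2 3)) := by
    refine disj_of_line 0 2 fun x h1 h2 => ?_
    rw [mem_T n01 n12] at h1; rw [mem_T n02 n23] at h2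
    exact le_antisymm h1.2.2 h2.1
  have d13 : Disjoint (interior (T 0 1 2)) (interior (T 0 3 4)) := by
    refine disj_of_line 0 3 fun x h1 h2 => ?_
    rw [mem_T n01 n12] at h1; rw [mem_T n03 n34] at h2
    obtain ⟨a1, a2, a3⟩ := h1
    obtain ⟨b1, b2, b3⟩ := h2
    unfold L at *
    linarith
  have d14 : Disjoint (interior (T 0 1 2)) (interior (T 0 4 5)) := by
    refine disj_of_line 0 4 fun x h1 h2 => ?_
    rw [mem_T n01 n12] at h1; rw [mem_T n04 n45] at h2
    obtain ⟨a1, a2, a3⟩ := h1
    obtain ⟨b1, b2, b3⟩ := h2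
    unfold L at *
    linarith
  have d23 : Disjoint (interior (T 0 2 3)) (interior (T 0 3 4)) := by
    refine disj_of_line 0 3 fun x h1 h2 => ?_
    rw [mem_T n02 n23] at h1; rw [mem_T n03 n34] at h2
    exact le_antisymm h1.2.2 h2.1
  have d24 : Disjoint (interior (T 0 2 3)) (interior (T 0 4 5)) := by
    refine disj_of_line 0 4 fun x h1 h2 => ?_
    rw [mem_T n02 n23] at h1; rw [mem_T n04 n45] at h2
    obtain ⟨a1, a2, a3⟩ := h1
    obtain ⟨b1, b2, b3⟩ := h2
    unfold L at *
    linarith
  have d34 : Disjoint (interior (T 0 3 4)) (interior (T 0 4 5)) := by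
    refine disj_of_line 0 4 fun x h1 h2 => ?_
    rw [mem_T n03 n34] at h1; rw [mem_T n04 n45] at h2
    exact le_antisymm h1.2.2 h2.1
  refine ⟨hs, ?_, ?_⟩
  · intro D hD D' hD' hne
    simp only [K0, Finset.mem_insert, Finset.mem_singleton] at hD hD'
    rcases hD with rfl | rfl | rfl | rfl <;> rcases hD' with rfl | rfl | rfl | rfl
    · exact absurd rfl hne
    · exact d12
    · exact d13
    · exact d14
    · exact d12.symm
    · exact absurd rfl hne
    · exact d23
    · exact d24
    · exact d13.symm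
    · exact d23.symm
    · exact absurd rfl hne
    · exact d34
    · exact d14.symm
    · exact d24.symm
    · exact d34.symm
    · exact absurd rfl hne
  · rw [diss_eq hs, Hx_eq]
    ext x
    simp only [mem_iUnion, K0, Finset.mem_insert, Finset.mem_singleton, exists_prop, mem_union]
    constructor
    · rintro ⟨D, rfl | rfl | rfl | rfl, hx⟩
      · exact Or.inl (Or.inl (Or.inl hx))
      · exact Or.inl (Or.inl (Or.inr hx))
      · exact Or.inl (Or.inr hx)
      · exact Or.inr hx
    · rintro (((hx | hx) | hx) | hx)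
      · exact ⟨_, Or.inl rfl, hx⟩
      · exact ⟨_, Or.inr (Or.inl rfl), hx⟩
      · exact ⟨_, Or.inr (Or.inr (Or.inl rfl)), hx⟩
      · exact ⟨_, Or.inr (Or.inr (Or.inr rfl)), hx⟩

theorem vertexSet_Hx : vertexSet Hx = S6 := by
  apply Subset.antisymm
  · intro v hv
    obtain ⟨D, hD, hvD⟩ := hv K0 K0_diss
    simp only [K0, Finset.mem_insert, Finset.mem_singleton] at hD
    simp only [S6, mem_insert_iff, mem_singleton_iff]
    rcases hD with rfl | rfl | rfl | rfl <;>
      simp only [tri, Finset.mem_insert, Finset.mem_singleton] at hvD <;>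
      rcases hvD with h | h | h <;> simp [h]
  · intro v hv K hK
    have hvH : v ∈ Hx := by
      rw [Hx_def]
      exact subset_convexHull ℝ _ hv
    have hK3 := hK.2.2
    rw [diss_eq hK.1] at hK3
    have hve : v ∈ Hx.extremePoints ℝ := by
      have : ∃ t : ℝ, v = pt t := by
        simp only [S6, mem_insert_iff, mem_singleton_iff] at hv
        rcases hv with h | h | h | h | h | h <;> exact ⟨_, h⟩
      obtain ⟨t, rfl⟩ := this
      exact ext_pt hvH
    rw [← hK3] at hvH
    simp only [mem_iUnion, exists_prop] at hvH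
    obtain ⟨D, hD, hvD⟩ := hvH
    refine ⟨D, hD, ?_⟩
    have hsub : convexHull ℝ (D : Set (E 2)) ⊆ Hx := by
      rw [← hK3]
      intro x hx
      simp only [mem_iUnion, exists_prop]
      exact ⟨D, hD, hx⟩
    have h1 := inter_extremePoints_subset_extremePoints_of_subset hsub ⟨hvD, hve⟩
    exact extremePoints_convexHull_subset h1

/-- the six points, as a function on `Fin 6` -/
noncomputable def pf (n : Fin 6) : E 2 := pt ((n : ℕ) : ℝ)

theorem pf_inj : Function.Injective pf := by
  intro a b h
  have h1 : ((a : ℕ) : ℝ) = ((b : ℕ) : ℝ) := pt_inj h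
  exact Fin.ext (by exact_mod_cast h1)

theorem S6_range : S6 = Set.range pf := by
  ext x
  simp only [S6, mem_insert_iff, mem_singleton_iff, Set.mem_range]
  constructor
  · rintro (h | h | h | h | h | h)
    · exact ⟨0, by rw [h]; simp [pf]⟩
    · exact ⟨1, by rw [h]; simp [pf]⟩
    · exact ⟨2, by rw [h]; simp [pf]⟩
    · exact ⟨3, by rw [h]; simp [pf]⟩
    · exact ⟨4, by rw [h]; simp [pf]⟩
    · exact ⟨5, by rw [h]; simp [pf]⟩
  · rintro ⟨n, rfl⟩
    fin_cases n <;> simp [pf]

theorem S6_ncard : S6.ncard = 6 := by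
  rw [S6_range, ← Set.image_univ, Set.ncard_image_of_injective _ pf_inj]
  simp

theorem gen_Hx : IsGenPolytope Hx := by
  classical
  refine ⟨{{pt 0, pt 1, pt 2, pt 3, pt 4, pt 5}}, ?_, ?_⟩
  · intro F hF
    rw [Finset.mem_singleton] at hF
    rw [hF]
    refine (interior_ne (isSimplex_tri (i := 0) (j := 1) (k := 2) (by norm_num)
      (by norm_num))).mono (interior_mono (convexHull_mono ?_))
    intro x hx
    simp only [tri, Finset.coe_insert, Finset.coe_singleton, mem_insert_iff,
      mem_singleton_iff] at hx ⊢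
    rcases hx with h | h | h <;> simp [h]
  · simp [Hx]

end Pool.Agent.Work.MP_8bc176_co.Hex
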