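import Pool.Agent.Work.MP_8bc176_co.Hex3
import Pool.Agent.Work.MP_8bc176_co.Hex4

set_option autoImplicit false

/-!
The span of the ten measures; the coordinates of the measure of the hexagon.
-/

namespace Pool.Agent.Work.MP_8bc176_co.Hex

open MeasureTheory Filter Topology Set

/-- the span of the ten measures -/
noncomputable def W : Submodule ℝ (SignedMeasure (E 2)) :=
  Submodule.span ℝ (Set.range fun n : Fin 10 => simplexMeasure (R10 n))

theorem mem_W (n : Fin 10) : simplexMeasure (R10 n) ∈ W := Submodule.subset_span ⟨n, rfl⟩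

theorem w012 : m 0 1 2 ∈ W := mem_W 0
theorem w014 : m 0 1 4 ∈ W := mem_W 1
theorem w023 : m 0 2 3 ∈ W := mem_W 2
theorem w035 : m 0 3 5 ∈ W := mem_W 3
theorem w045 : m 0 4 5 ∈ W := mem_W 4
theorem w125 : m 1 2 5 ∈ W := mem_W 5
theorem w134 : m 1 3 4 ∈ W := mem_W 6
theorem w135 : m 1 3 5 ∈ W := mem_W 7
theorem w234 : m 2 3 4 ∈ W := mem_W 8
theorem w245 : m 2 4 5 ∈ W := mem_W 9

theorem quad0 {j k l : ℝ} (h0 : 0 < j) (hjk : j < k) (hkl : k < l) :
    m j k l = m 0 j k + m 0 k l - m 0 j l := by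
  rw [m_quad h0 hjk hkl]
  abel

theorem q125 : m 1 2 5 = m 0 1 2 + m 0 2 5 - m 0 1 5 :=
  quad0 (by norm_num) (by norm_num) (by norm_num)
theorem q134 : m 1 3 4 = m 0 1 3 + m 0 3 4 - m 0 1 4 :=
  quad0 (by norm_num) (by norm_num) (by norm_num)
theorem q135 : m 1 3 5 = m 0 1 3 + m 0 3 5 - m 0 1 5 :=
  quad0 (by norm_num) (by norm_num) (by norm_num)
theorem q234 : m 2 3 4 = m 0 2 3 + m 0 3 4 - m 0 2 4 :=
  quad0 (by norm_num) (by norm_num) (by norm_num)
theorem q245 : m 2 4 5 = m 0 2 4 + m 0 4 5 - m 0 2 5 :=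
  quad0 (by norm_num) (by norm_num) (by norm_num)

theorem e034 : (2 : ℝ) • m 0 3 4 = m 1 3 4 + m 0 1 4 + m 2 3 4 - m 0 2 3 + m 2 4 5 - m 0 4 5 +
    m 1 2 5 - m 0 1 2 + m 0 3 5 - m 1 3 5 := by
  rw [q125, q134, q135, q234, q245]
  module

theorem w034 : m 0 3 4 ∈ W := by
  have h : m 0 3 4 = (1 / 2 : ℝ) • ((2 : ℝ) • m 0 3 4) := by
    rw [smul_smul]
    norm_num
  rw [h, e034]
  refine W.smul_mem _ ?_
  exact W.sub_mem (W.add_mem (W.sub_mem (W.add_mem (W.sub_mem (W.add_mem (W.sub_mem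
    (W.add_mem (W.add_mem w134 w014) w234) w023) w245) w045) w125) w012) w035) w135

theorem w013 : m 0 1 3 ∈ W := by
  have h : m 0 1 3 = m 1 3 4 - m 0 3 4 + m 0 1 4 := by rw [q134]; abel
  rw [h]
  exact W.add_mem (W.sub_mem w134 w034) w014

theorem w015 : m 0 1 5 ∈ W := by
  have h : m 0 1 5 = m 0 1 3 + m 0 3 5 - m 1 3 5 := by rw [q135]; abel
  rw [h]
  exact W.sub_mem (W.add_mem w013 w035) w135

theorem w024 : m 0 2 4 ∈ W := by
  have h : m 0 2 4 = m 0 2 3 + m 0 3 4 - m 2 3 4 := by rw [q234]; abel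
  rw [h]
  exact W.sub_mem (W.add_mem w023 w034) w234

theorem w025 : m 0 2 5 ∈ W := by
  have h : m 0 2 5 = m 0 2 4 + m 0 4 5 - m 2 4 5 := by rw [q245]; abel
  rw [h]
  exact W.sub_mem (W.add_mem w024 w045) w245

theorem w0 (j k : Fin 6) (h0 : 0 < j) (hjk : j < k) :
    m 0 ((j : ℕ) : ℝ) ((k : ℕ) : ℝ) ∈ W := by
  fin_cases j <;> fin_cases k <;> simp at h0 hjk <;> simp
  · exact w012
  · exact w013
  · exact w014
  · exact w015
  · exact w023
  · exact w024
  · exact w025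
  · exact w034
  · exact w035
  · exact w045

theorem wAll (i j k : Fin 6) (hij : i < j) (hjk : j < k) :
    m ((i : ℕ) : ℝ) ((j : ℕ) : ℝ) ((k : ℕ) : ℝ) ∈ W := by
  rcases Nat.eq_zero_or_pos (i : ℕ) with h | h
  · rw [h, Nat.cast_zero]
    refine w0 j k ?_ hjk
    exact lt_of_le_of_lt (Fin.zero_le _) hij
  · have h1 : (0 : ℝ) < ((i : ℕ) : ℝ) := by exact_mod_cast h
    have h2 : ((i : ℕ) : ℝ) < ((j : ℕ) : ℝ) := by exact_mod_cast hij
    have h3 : ((j : ℕ) : ℝ) < ((k : ℕ) : ℝ) := by exact_mod_cast hjk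
    have h0 : (0 : Fin 6) < i := h
    rw [quad0 h1 h2 h3]
    exact W.sub_mem (W.add_mem (w0 i j h0 hij) (w0 j k (h0.trans hij) hjk))
      (w0 i k h0 (hij.trans hjk))

theorem wD {D : Finset (E 2)} (hD : IsSimplex D) (hS : (D : Set (E 2)) ⊆ S6) :
    simplexMeasure D ∈ W := by
  classical
  have hc : D.card = 3 := hD.1
  obtain ⟨s, hs⟩ : ∃ s : Finset (Fin 6), D = s.image pf := by
    refine ⟨Finset.univ.filter fun n => pf n ∈ D, ?_⟩
    ext x
    simp only [Finset.mem_image, Finset.mem_filter, Finset.mem_univ, true_and]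
    constructor
    · intro hx
      have := hS hx
      rw [S6_range] at this
      obtain ⟨n, rfl⟩ := this
      exact ⟨n, hx, rfl⟩
    · rintro ⟨n, hn, rfl⟩
      exact hn
  have hsc : s.card = 3 := by
    rw [hs, Finset.card_image_of_injective _ pf_inj] at hc
    exact hc
  have h01 : s.orderEmbOfFin hsc 0 < s.orderEmbOfFin hsc 1 :=
    (s.orderEmbOfFin hsc).strictMono (by decide)
  have h12 : s.orderEmbOfFin hsc 1 < s.orderEmbOfFin hsc 2 :=
    (s.orderEmbOfFin hsc).strictMono (by decide)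
  have hset : s = {s.orderEmbOfFin hsc 0, s.orderEmbOfFin hsc 1, s.orderEmbOfFin hsc 2} := by
    have h := s.range_orderEmbOfFin hsc
    ext x
    rw [← Finset.mem_coe, ← h]
    simp only [Set.mem_range, Finset.mem_insert, Finset.mem_singleton]
    constructor
    · rintro ⟨n, rfl⟩
      fin_cases n <;> simp
    · rintro (h | h | h)
      · exact ⟨0, h.symm⟩
      · exact ⟨1, h.symm⟩
      · exact ⟨2, h.symm⟩
  have hDt : D = tri (((s.orderEmbOfFin hsc 0 : Fin 6) : ℕ) : ℝ)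
      (((s.orderEmbOfFin hsc 1 : Fin 6) : ℕ) : ℝ) (((s.orderEmbOfFin hsc 2 : Fin 6) : ℕ) : ℝ) := by
    have h1 : s.image pf = ({s.orderEmbOfFin hsc 0, s.orderEmbOfFin hsc 1,
        s.orderEmbOfFin hsc 2} : Finset (Fin 6)).image pf := by rw [← hset]
    rw [hs, h1, Finset.image_insert, Finset.image_insert, Finset.image_singleton]
    ext x
    simp only [tri, pf, Finset.mem_insert, Finset.mem_singleton]
  rw [hDt]
  exact wAll _ _ _ h01 h12

theorem tri_sub {i j k : ℝ} (hi : pt i ∈ S6) (hj : pt j ∈ S6) (hk : pt k ∈ S6) :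
    ((tri i j k : Finset (E 2)) : Set (E 2)) ⊆ S6 := by
  intro x hx
  simp only [tri, Finset.coe_insert, Finset.coe_singleton, mem_insert_iff,
    mem_singleton_iff] at hx
  rcases hx with rfl | rfl | rfl <;> assumption

theorem R10_mem (n : Fin 10) : IsSimplex (R10 n) ∧ ((R10 n : Finset (E 2)) : Set (E 2)) ⊆ S6 := by
  fin_cases n
  all_goals
    exact ⟨isSimplex_tri (by norm_num) (by norm_num),
      tri_sub (by simp [S6]) (by simp [S6]) (by simp [S6])⟩

theorem span_eq : Submodule.span ℝ (Set.range fun n : Fin 10 => simplexMeasure (R10 n)) =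
    MDelta S6 := by
  apply le_antisymm
  · rw [Submodule.span_le]
    rintro x ⟨n, rfl⟩
    exact Submodule.subset_span ⟨R10 n, (R10_mem n).1, (R10_mem n).2, rfl⟩
  · unfold MDelta
    rw [Submodule.span_le]
    rintro x ⟨D, hD, hS, rfl⟩
    exact wD hD hS

/-- the coordinates of the measure of the hexagon -/
noncomputable def cf : Fin 10 → ℝ := ![1/2, 1/2, 1/2, 1/2, 1/2, 1/2, 1/2, -(1/2), 1/2, 1/2]

theorem cf_abs (n : Fin 10) : |cf n| = 1 / 2 := by
  fin_cases n <;> simp [cf]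

theorem sum10M {M : Type*} [AddCommMonoid M] (F : Fin 10 → M) : ∑ i, F i =
    F 0 + F 1 + F 2 + F 3 + F 4 + F 5 + F 6 + F 7 + F 8 + F 9 := by
  rw [Fin.sum_univ_castSucc, Fin.sum_univ_castSucc, Fin.sum_univ_eight]
  rfl

theorem Hx_coord : stdMeasure Hx = ∑ n, cf n • simplexMeasure (R10 n) := by
  have h : m 0 3 4 = (1 / 2 : ℝ) • ((2 : ℝ) • m 0 3 4) := by
    rw [smul_smul]
    norm_num
  rw [Hx_measure, sum10M, h, e034]
  change _ = (1 / 2 : ℝ) • m 0 1 2 + (1 / 2 : ℝ) • m 0 1 4 + (1 / 2 : ℝ) • m 0 2 3 +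
    (1 / 2 : ℝ) • m 0 3 5 + (1 / 2 : ℝ) • m 0 4 5 + (1 / 2 : ℝ) • m 1 2 5 +
    (1 / 2 : ℝ) • m 1 3 4 + (-(1 / 2) : ℝ) • m 1 3 5 + (1 / 2 : ℝ) • m 2 3 4 +
    (1 / 2 : ℝ) • m 2 4 5
  module

/-- elements of the lattice have integer coordinates -/
theorem closure_coord {v : Fin 10 → SignedMeasure (E 2)} {x : SignedMeasure (E 2)}
    (hx : x ∈ AddSubgroup.closure (Set.range v)) : ∃ n : Fin 10 → ℤ, x = ∑ i, (n i : ℝ) • v i := by
  classical
  induction hx using AddSubgroup.closure_induction with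
  | mem x hx =>
    obtain ⟨j, rfl⟩ := hx
    refine ⟨Pi.single j 1, ?_⟩
    rw [Finset.sum_eq_single j]
    · simp
    · intro i _ hij
      simp [hij]
    · simp
  | zero => exact ⟨0, by simp⟩
  | add x y _ _ hx hy =>
    obtain ⟨a, rfl⟩ := hx
    obtain ⟨b, rfl⟩ := hy
    refine ⟨a + b, ?_⟩
    rw [← Finset.sum_add_distrib]
    refine Finset.sum_congr rfl fun i _ => ?_
    rw [← add_smul]
    simp
  | neg x _ hx =>
    obtain ⟨a, rfl⟩ := hx
    refine ⟨-a, ?_⟩
    rw [← Finset.sum_neg_distrib]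
    refine Finset.sum_congr rfl fun i _ => ?_
    have e : (((-a) i : ℤ) : ℝ) = -((a i : ℤ) : ℝ) := by simp
    rw [e]
    exact (neg_smul _ _).symm

/-- a vector with a half integer coordinate is not in the lattice of an independent family -/
theorem notMem_closure {v : Fin 10 → SignedMeasure (E 2)} (hv : LinearIndependent ℝ v)
    {c : Fin 10 → ℝ} (hc : |c 0| = 1 / 2) : ∑ i, c i • v i ∉ AddSubgroup.closure (Set.range v) := by
  intro h
  obtain ⟨n, hn⟩ := closure_coord h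
  have h1 : ∑ i, (c i - n i) • v i = 0 := by
    have h0 : ∑ i, c i • v i = ∑ i, (c i - n i) • v i + ∑ i, (n i : ℝ) • v i := by
      rw [← Finset.sum_add_distrib]
      refine Finset.sum_congr rfl fun i _ => ?_
      rw [← add_smul, sub_add_cancel]
    exact add_eq_right.1 (h0.symm.trans hn)
  have h2 := Fintype.linearIndependent_iff.1 hv _ h1 0
  have h3 : c 0 = n 0 := by linarith
  rw [h3] at hc
  have h4 : ((2 * |n 0| : ℤ) : ℝ) = ((1 : ℤ) : ℝ) := by
    push_cast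
    linarith
  have h5 : 2 * |n 0| = 1 := by exact_mod_cast h4
  omega

end Pool.Agent.Work.MP_8bc176_co.Hex
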