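import Mathlib

set_option autoImplicit false

namespace Pool.Agent.Work.MP_8bc176_co

open MeasureTheory

/-- the space `ℝ^d` -/
abbrev E (d : ℕ) := EuclideanSpace ℝ (Fin d)

variable {d : ℕ}

/-- `D` is the vertex set of a `d`-simplex: `d + 1` affinely independent points. -/
def IsSimplex (D : Finset (E d)) : Prop :=
  D.card = d + 1 ∧ AffineIndependent ℝ (fun x : D => (x : E d))

/-- The standard measure of `Ω`: the signed measure `χ_Ω dx`. -/
noncomputable def stdMeasure (Ω : Set (E d)) : SignedMeasure (E d) :=
  (volume : Measure (E d)).withDensityᵥ (Ω.indicator (fun _ => (1 : ℝ)))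

/-- The standard measure of the simplex with vertex set `D`. -/
noncomputable def simplexMeasure (D : Finset (E d)) : SignedMeasure (E d) :=
  stdMeasure (convexHull ℝ (D : Set (E d)))

/-- The measures of the `d`-simplices with vertices in `S`. -/
def simplexMeasures (S : Set (E d)) : Set (SignedMeasure (E d)) :=
  {m | ∃ D : Finset (E d), IsSimplex D ∧ (D : Set (E d)) ⊆ S ∧ m = simplexMeasure D}

/-- The real vector space spanned by the measures of the `d`-simplices with vertices in `S`. -/
noncomputable def MDelta (S : Set (E d)) : Submodule ℝ (SignedMeasure (E d)) :=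
  Submodule.span ℝ (simplexMeasures S)

/-- The lattice: the additive group generated by the measures of the `d`-simplices with vertices
in `S`. -/
noncomputable def Lambda (S : Set (E d)) : AddSubgroup (SignedMeasure (E d)) :=
  AddSubgroup.closure (simplexMeasures S)

/-- A generalized polytope: a finite union of convex polytopes of full dimension. -/
def IsGenPolytope (P : Set (E d)) : Prop :=
  ∃ Q : Finset (Finset (E d)),
    (∀ F ∈ Q, (interior (convexHull ℝ (F : Set (E d)))).Nonempty) ∧
    P = ⋃ F ∈ Q, convexHull ℝ (F : Set (E d))

/-- A dissection of `P`: a finite family of pairwise disjoint open `d`-simplices whose union has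
closure `P`.  A simplex is given by its set of vertices. -/
def IsDissection (P : Set (E d)) (K : Finset (Finset (E d))) : Prop :=
  (∀ D ∈ K, IsSimplex D) ∧
  (∀ D ∈ K, ∀ D' ∈ K, D ≠ D' → Disjoint (interior (convexHull ℝ (D : Set (E d))))
    (interior (convexHull ℝ (D' : Set (E d))))) ∧
  closure (⋃ D ∈ K, interior (convexHull ℝ (D : Set (E d)))) = P

/-- The vertices of `P`: the points which are a vertex of some simplex in every dissection. -/
def vertexSet (P : Set (E d)) : Set (E d) :=
  {v | ∀ K : Finset (Finset (E d)), IsDissection P K → ∃ D ∈ K, v ∈ D}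

end Pool.Agent.Work.MP_8bc176_co
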