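import Pool.Agent.Work.MP_8bc176_co.Ident

set_option autoImplicit false

namespace Pool.Agent.Work.MP_8bc176_co

open Classical Filter Topology

variable {V : Type*} [AddCommGroup V] [Module ℝ V]

theorem ev_sign (a c : ℝ) (ha : a ≠ 0) :
    ∀ᶠ ε : ℝ in 𝓝[>] 0, (0 < a + ε * c ↔ 0 < a) ∧ a + ε * c ≠ 0 := by
  have hcont : Tendsto (fun ε : ℝ => a + ε * c) (𝓝[>] 0) (𝓝 a) := by
    have : Tendsto (fun ε : ℝ => a + ε * c) (𝓝 0) (𝓝 (a + 0 * c)) := by
      apply Continuous.tendsto
      fun_prop
    rw [zero_mul, add_zero] at this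
    exact this.mono_left nhdsWithin_le_nhds
  rcases lt_or_gt_of_ne ha with h | h
  · filter_upwards [hcont.eventually (gt_mem_nhds h)] with ε hε
    exact ⟨⟨fun h' => by linarith, fun h' => by linarith⟩, hε.ne⟩
  · filter_upwards [hcont.eventually (lt_mem_nhds h)] with ε hε
    exact ⟨⟨fun h' => h, fun h' => hε⟩, hε.ne'⟩

theorem ev_notMem (X : Submodule ℝ V) (y s : V) (h : y ∉ X ∨ s ∉ X) :
    ∀ᶠ ε : ℝ in 𝓝[>] 0, y + ε • s ∉ X ∧ y - ε • s ∉ X := by
  by_cases hy : y ∈ X
  · have hs : s ∉ X := by
      rcases h with h | h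
      · exact absurd hy h
      · exact h
    filter_upwards [self_mem_nhdsWithin] with ε hε
    have hε' : (0 : ℝ) < ε := hε
    have key : ∀ z : V, ε • s = z → z ∈ X → False := by
      intro z hz hzX
      apply hs
      have : s = ε⁻¹ • z := by rw [← hz, smul_smul, inv_mul_cancel₀ hε'.ne', one_smul]
      rw [this]; exact Submodule.smul_mem _ _ hzX
    constructor
    · intro hmem
      exact key ((y + ε • s) - y) (by abel) (Submodule.sub_mem _ hmem hy)
    · intro hmem
      exact key (y - (y - ε • s)) (by abel) (Submodule.sub_mem _ hy hmem)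
  · obtain ⟨f, hf, hker⟩ := Submodule.exists_le_ker_of_notMem hy
    filter_upwards [ev_sign (f y) (f s) hf, ev_sign (f y) (- f s) hf] with ε h1 h2
    constructor
    · intro hmem
      have := hker hmem
      rw [LinearMap.mem_ker, map_add, map_smul, smul_eq_mul] at this
      exact h1.2 this
    · intro hmem
      have := hker hmem
      rw [LinearMap.mem_ker, map_sub, map_smul, smul_eq_mul] at this
      apply h2.2
      linarith

theorem Bas.ev_chi {b : Finset V} {W : Submodule ℝ V} (h : Bas b W) {s y : V} (hs : s ∈ W)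
    (hy : y ∈ W) (hne : ∀ v ∈ b, du b v y ≠ 0) :
    ∀ᶠ ε : ℝ in 𝓝[>] 0, chi b (y + ε • s) = chi b y ∧ chi b (y - ε • s) = chi b y := by
  have h1 : ∀ᶠ ε : ℝ in 𝓝[>] 0, ∀ v ∈ b, ((0 < du b v (y + ε • s) ↔ 0 < du b v y) ∧
      (0 < du b v (y - ε • s) ↔ 0 < du b v y)) := by
    rw [Filter.eventually_all_finset]
    intro v hv
    filter_upwards [ev_sign (du b v y) (du b v s) (hne v hv),
      ev_sign (du b v y) (- du b v s) (hne v hv)] with ε h1 h2
    rw [map_add, map_sub, map_smul, smul_eq_mul]
    refine ⟨h1.1, ?_⟩
    rw [← h2.1]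
    constructor <;> intro h3 <;> linarith
  filter_upwards [h1] with ε hε
  have e1 : y + ε • s ∈ W := Submodule.add_mem _ hy (Submodule.smul_mem _ _ hs)
  have e2 : y - ε • s ∈ W := Submodule.sub_mem _ hy (Submodule.smul_mem _ _ hs)
  unfold chi
  constructor
  · congr 1
    rw [h.mem_cone e1, h.mem_cone hy]
    apply propext
    exact forall₂_congr (fun v hv => (hε v hv).1)
  · congr 1
    rw [h.mem_cone e2, h.mem_cone hy]
    apply propext
    exact forall₂_congr (fun v hv => (hε v hv).2)

/-- generically an integral combination of the family -/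
def Comb (W : Submodule ℝ V) (B : Finset (Finset V)) (g : V → ℝ) : Prop :=
  ∃ n : Finset V → ℤ, Gen W (fun y => g y = ∑ c ∈ B, (n c : ℝ) * chi c y)

theorem Comb.zero {W : Submodule ℝ V} {B : Finset (Finset V)} : Comb W B (fun _ => 0) :=
  ⟨fun _ => 0, Gen.of_forall (by intro y _; simp)⟩

theorem Comb.add {W : Submodule ℝ V} {B : Finset (Finset V)} {g g' : V → ℝ} (h : Comb W B g)
    (h' : Comb W B g') : Comb W B (fun y => g y + g' y) := by
  obtain ⟨n, hn⟩ := h
  obtain ⟨n', hn'⟩ := h'
  refine ⟨fun c => n c + n' c, (hn.and hn').mono ?_⟩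
  rintro y _ ⟨h1, h2⟩
  simp only [h1, h2, ← Finset.sum_add_distrib]
  apply Finset.sum_congr rfl
  intro c _
  push_cast; ring

theorem Comb.smul {W : Submodule ℝ V} {B : Finset (Finset V)} {g : V → ℝ} (h : Comb W B g)
    (m : ℤ) : Comb W B (fun y => (m : ℝ) * g y) := by
  obtain ⟨n, hn⟩ := h
  refine ⟨fun c => m * n c, hn.mono ?_⟩
  intro y _ h1
  simp only [h1, Finset.mul_sum]
  apply Finset.sum_congr rfl
  intro c _
  push_cast; ring

theorem Comb.sum {ι : Type*} {W : Submodule ℝ V} {B : Finset (Finset V)} (s : Finset ι)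
    {g : ι → V → ℝ} (h : ∀ i ∈ s, Comb W B (g i)) : Comb W B (fun y => ∑ i ∈ s, g i y) := by
  induction s using Finset.induction_on with
  | empty => simpa using Comb.zero
  | insert i s hi ih =>
    have := (h i (by simp)).add (ih (fun j hj => h j (by simp [hj])))
    simpa only [Finset.sum_insert hi] using this

theorem Comb.congr {W : Submodule ℝ V} {B : Finset (Finset V)} {g g' : V → ℝ} (h : Comb W B g)
    (hg : Gen W (fun y => g' y = g y)) : Comb W B g' := by
  obtain ⟨n, hn⟩ := h
  refine ⟨n, (hn.and hg).mono ?_⟩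
  rintro y _ ⟨h1, h2⟩
  exact h2.trans h1

theorem Comb.of_mem {W : Submodule ℝ V} {B : Finset (Finset V)} {b : Finset V} (hb : b ∈ B) :
    Comb W B (chi b) := by
  refine ⟨fun c => if c = b then 1 else 0, Gen.of_forall ?_⟩
  intro y _
  rw [Finset.sum_eq_single b]
  · simp
  · intro c _ hne; simp [hne]
  · intro h; exact absurd hb h

structure Fam (T : Finset V) (W : Submodule ℝ V) (B : Finset (Finset V)) : Prop where
  mem : ∀ b ∈ B, b ⊆ T ∧ Bas b W
  gen : ∀ b, b ⊆ T → Bas b W → Comb W B (chi b)
  int : ∀ a : Finset V → ℝ, Gen W (fun y => ∃ m : ℤ, ∑ c ∈ B, a c * chi c y = m) →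
    ∀ c ∈ B, ∃ m : ℤ, a c = m

theorem exists_fam [FiniteDimensional ℝ V] (l : V →ₗ[ℝ] ℝ) (T : Finset V)
    (hT : ∀ t ∈ T, 0 < l t) : ∀ (n : ℕ) (W : Submodule ℝ V), Module.finrank ℝ W = n →
    ∃ B, Fam T W B := by
  intro n
  induction n with
  | zero =>
    intro W hW
    have hbot : W = ⊥ := Submodule.finrank_eq_zero.1 hW
    subst hbot
    refine ⟨{∅}, ?_, ?_, ?_⟩
    · intro b hb
      rw [Finset.mem_singleton] at hb
      subst hb
      exact ⟨by simp, ⟨by simp, by simp⟩⟩
    · intro b _ hb
      have : b.card = 0 := by rw [← hb.finrank]; exact hW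
      rw [Finset.card_eq_zero] at this
      subst this
      exact Comb.of_mem (by simp)
    · rintro a ⟨U, hU, h⟩ c hc
      rw [Finset.mem_singleton] at hc
      subst hc
      obtain ⟨m, hm⟩ := h 0 (Submodule.zero_mem _) (fun X hX => absurd (hU X hX) not_lt_bot)
      refine ⟨m, ?_⟩
      have h1 : chi (∅ : Finset V) 0 = 1 := by
        unfold chi
        rw [if_pos]
        exact ⟨fun _ => 1, by simp, by simp⟩
      rw [Finset.sum_singleton, h1, mul_one] at hm
      exact hm
  | succ n ih =>
    intro W hW
    by_cases hs : ∃ s ∈ T, s ∈ W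
    swap
    · refine ⟨∅, by simp, ?_, by simp⟩
      intro b hbT hb
      exfalso
      have hc : b.card = n + 1 := by rw [← hb.finrank]; exact hW
      obtain ⟨v, hv⟩ := Finset.card_pos.1 (show 0 < b.card by omega)
      exact hs ⟨v, hbT hv, hb.sub hv⟩
    obtain ⟨s, hsT, hsW⟩ := hs
    -- hyperplanes
    let HH : Finset (Submodule ℝ V) := (T.powerset.image (fun b : Finset V => Submodule.span ℝ (b : Set V))).filter
      (fun H => H ≤ W ∧ s ∉ H ∧ Module.finrank ℝ H = n)
    have hHH : ∀ H ∈ HH, H ≤ W ∧ s ∉ H ∧ Module.finrank ℝ H = n := by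
      intro H hH
      exact (Finset.mem_filter.1 hH).2
    let F : Submodule ℝ V → Finset (Finset V) := fun H =>
      if h : Module.finrank ℝ H = n then (ih H h).choose else ∅
    have hF : ∀ H ∈ HH, Fam T H (F H) := by
      intro H hH
      have h := (hHH H hH).2.2
      simp only [F, dif_pos h]
      exact (ih H h).choose_spec
    let B : Finset (Finset V) := HH.biUnion (fun H => (F H).image (insert s))
    have hBmem : ∀ d, d ∈ B ↔ ∃ H ∈ HH, ∃ c ∈ F H, insert s c = d := by
      intro d; simp only [B, Finset.mem_biUnion, Finset.mem_image]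
    have hsup : ∀ H ∈ HH, H ⊔ Submodule.span ℝ {s} = W := by
      intro H hH
      obtain ⟨h1, h2, h3⟩ := hHH H hH
      have hle : H ⊔ Submodule.span ℝ {s} ≤ W := by
        refine sup_le h1 ?_
        rw [Submodule.span_le]
        simpa using hsW
      have hlt : H < H ⊔ Submodule.span ℝ {s} := by
        refine lt_of_le_of_ne le_sup_left ?_
        intro heq
        apply h2
        rw [heq]
        exact Submodule.mem_sup_right (Submodule.mem_span_singleton_self s)
      have := Submodule.finrank_lt_finrank_of_lt hlt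
      exact Submodule.eq_of_le_of_finrank_le hle (by omega)
    have hproj : ∀ H ∈ HH, ∃ ψ : V →ₗ[ℝ] ℝ, ∃ π : V →ₗ[ℝ] V, (∀ h ∈ H, π h = h) ∧
        (∀ y ∈ W, π y ∈ H) ∧ ∀ y, y = ψ y • s + π y := by
      intro H hH
      obtain ⟨h1, h2, h3⟩ := hHH H hH
      obtain ⟨f, hf, hker⟩ := Submodule.exists_le_ker_of_notMem h2
      have hfH : ∀ h ∈ H, f h = 0 := fun h hh => hker hh
      refine ⟨(f s)⁻¹ • f, LinearMap.id - ((f s)⁻¹ • f).smulRight s, ?_, ?_, ?_⟩
      · intro h hh
        simp [hfH h hh]
      · intro y hy
        rw [← hsup H hH, Submodule.mem_sup] at hy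
        obtain ⟨h, hh, z, hz, rfl⟩ := hy
        obtain ⟨c, rfl⟩ := Submodule.mem_span_singleton.1 hz
        have : (LinearMap.id - ((f s)⁻¹ • f).smulRight s : V →ₗ[ℝ] V) (h + c • s) = h := by
          have e1 : ((f s)⁻¹ • f) (h + c • s) = c := by
            rw [LinearMap.smul_apply, map_add, map_smul, hfH h hh, zero_add, smul_eq_mul, smul_eq_mul]
            field_simp
          rw [LinearMap.sub_apply, LinearMap.id_apply, LinearMap.smulRight_apply, e1]
          abel
        rw [this]; exact hh
      · intro y
        simp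
    have hBas : ∀ H ∈ HH, ∀ c ∈ F H, Bas (insert s c) W := by
      intro H hH c hc
      have h1 := ((hF H hH).mem c hc).2
      have h2 := h1.ins (hHH H hH).2.1
      rwa [hsup H hH] at h2
    refine ⟨B, ?_, ?_, ?_⟩
    · intro d hd
      obtain ⟨H, hH, c, hc, rfl⟩ := (hBmem d).1 hd
      have h1 := (hF H hH).mem c hc
      exact ⟨Finset.insert_subset hsT h1.1, hBas H hH c hc⟩
    · intro b hbT hb
      have hpos : ∃ w ∈ b, 0 < du b w s := by
        by_contra hcon
        push Not at hcon
        have h1 := congrArg l (hb.expand hsW)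
        rw [map_sum] at h1
        have h2 : ∑ v ∈ b, l (du b v s • v) ≤ 0 := by
          apply Finset.sum_nonpos
          intro v hv
          rw [map_smul, smul_eq_mul]
          exact mul_nonpos_of_nonpos_of_nonneg (hcon v hv) (hT v (hbT hv)).le
        have h3 := hT s hsT
        linarith
      refine Comb.congr ?_ (hb.chi_swap hsW hpos)
      apply Comb.sum
      intro v hv
      simp only [Finset.mem_filter] at hv
      apply Comb.smul
      -- the hyperplane
      have hbe := hb.era (v := v)
      have hHmem : Submodule.span ℝ ((b.erase v : Finset V) : Set V) ∈ HH := by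
        simp only [HH, Finset.mem_filter, Finset.mem_image, Finset.mem_powerset]
        refine ⟨⟨b.erase v, (Finset.erase_subset _ _).trans hbT, rfl⟩, ?_, ?_, ?_⟩
        · rw [← hb.sp]
          exact Submodule.span_mono (by simp)
        · intro hmem
          exact hv.2 ((hb.du_span hv.1 hsW).2 hmem)
        · rw [hbe.finrank, Finset.card_erase_of_mem hv.1]
          have : b.card = n + 1 := by rw [← hb.finrank]; exact hW
          omega
      set H := Submodule.span ℝ ((b.erase v : Finset V) : Set V) with hH
      obtain ⟨m, hm⟩ := (hF H hHmem).gen (b.erase v) ((Finset.erase_subset _ _).trans hbT) hbe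
      obtain ⟨ψ, π, hπ, hπW, hdec⟩ := hproj H hHmem
      have hlift := Gen.lift (hHH H hHmem).1 π hπ hπW hm
      have hcomb : Comb W B (fun y => ∑ c ∈ F H, (m c : ℝ) * chi (insert s c) y) := by
        apply Comb.sum
        intro c hc
        apply Comb.smul
        exact Comb.of_mem ((hBmem _).2 ⟨H, hHmem, c, hc, rfl⟩)
      refine hcomb.congr (hlift.mono ?_)
      intro y hy hyeq
      have hsH := (hHH H hHmem).2.1
      have e1 : ∀ c : Finset V, Submodule.span ℝ (c : Set V) = H →
          chi (insert s c) y = if 0 < ψ y then chi c (π y) else 0 := by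
        intro c hc
        conv_lhs => rw [hdec y]
        exact chi_insert hc hsH (hπW y hy)
      rw [e1 _ rfl]
      by_cases hψ : 0 < ψ y
      · rw [if_pos hψ, hyeq]
        apply Finset.sum_congr rfl
        intro c hc
        rw [e1 c ((hF H hHmem).mem c hc).2.sp, if_pos hψ]
      · rw [if_neg hψ]
        symm
        apply Finset.sum_eq_zero
        intro c hc
        rw [e1 c ((hF H hHmem).mem c hc).2.sp, if_neg hψ, mul_zero]
    · rintro a ⟨U, hU, hint⟩ d hd
      obtain ⟨H, hH, c, hc, rfl⟩ := (hBmem d).1 hd
      obtain ⟨hHW, hsH, hfr⟩ := hHH H hH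
      refine (hF H hH).int (fun c => a (insert s c)) ?_ c hc
      -- genericity
      have g1 : Gen H (fun y => ∀ X ∈ U, ¬ H ≤ X → y ∉ X) := by
        apply Gen.all
        intro X hX
        by_cases hle : H ≤ X
        · exact Gen.of_forall (fun y _ h => absurd hle h)
        · refine ⟨{H ⊓ X}, ?_, ?_⟩
          · intro Y hY
            rw [Finset.mem_singleton] at hY
            subst hY
            exact lt_of_le_of_ne inf_le_left (fun h => hle (inf_eq_left.1 h))
          · intro y hy h _ hyX
            exact h _ (Finset.mem_singleton_self _) ⟨hy, hyX⟩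
      have g2 : Gen H (fun y => ∀ d ∈ B, ∀ v ∈ d, (∃ x ∈ H, du d v x ≠ 0) → du d v y ≠ 0) := by
        apply Gen.all
        intro d _
        apply Gen.all
        intro v _
        by_cases hx : ∃ x ∈ H, du d v x ≠ 0
        · obtain ⟨x, hxH, hx⟩ := hx
          exact (Gen.ker (du d v) hxH hx).mono (fun y _ h _ => h)
        · exact Gen.of_forall (fun y _ h => absurd h hx)
      refine (g1.and g2).mono ?_
      rintro y hy ⟨hy1, hy2⟩
      have hyW : y ∈ W := hHW hy
      have ev1 : ∀ᶠ ε : ℝ in 𝓝[>] 0, ∀ X ∈ U, y + ε • s ∉ X ∧ y - ε • s ∉ X := by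
        rw [Filter.eventually_all_finset]
        intro X hX
        apply ev_notMem
        by_cases hle : H ≤ X
        · right
          intro hsX
          have : W ≤ X := by
            rw [← hsup H hH]
            refine sup_le hle ?_
            rw [Submodule.span_le]
            simpa using hsX
          exact absurd this (not_le_of_gt (hU X hX))
        · left; exact hy1 X hX hle
      have ev2 : ∀ᶠ ε : ℝ in 𝓝[>] 0, ∀ d ∈ B, d ∉ (F H).image (insert s) →
          chi d (y + ε • s) = chi d y ∧ chi d (y - ε • s) = chi d y := by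
        rw [Filter.eventually_all_finset]
        intro d hd
        by_cases hdn : d ∈ (F H).image (insert s)
        · exact Filter.Eventually.of_forall (fun ε h => absurd hdn h)
        · obtain ⟨H', hH', c', hc', rfl⟩ := (hBmem d).1 hd
          have hne : H' ≠ H := by
            rintro rfl
            exact hdn (Finset.mem_image_of_mem _ hc')
          have hBd := hBas H' hH' c' hc'
          have hnz : ∀ v ∈ insert s c', du (insert s c') v y ≠ 0 := by
            intro v hv
            apply hy2 _ hd v hv
            by_contra hcon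
            push Not at hcon
            have hle : H ≤ Submodule.span ℝ (((insert s c').erase v : Finset V) : Set V) := by
              intro x hx
              exact (hBd.du_span hv (hHW hx)).1 (hcon x hx)
            have hbe := hBd.era (v := v)
            have hcard : (insert s c').card = n + 1 := by rw [← hBd.finrank]; exact hW
            have hfr' := hbe.finrank
            rw [Finset.card_erase_of_mem hv, hcard] at hfr'
            have heq := Submodule.eq_of_le_of_finrank_le hle (by rw [hfr']; omega)
            by_cases hvs : v = s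
            · subst hvs
              have hsc : v ∉ c' := fun h => (hHH H' hH').2.1 (((hF H' hH').mem c' hc').2.sub h)
              rw [Finset.erase_insert hsc, ((hF H' hH').mem c' hc').2.sp] at heq
              exact hne heq.symm
            · apply hsH
              rw [heq]
              exact Submodule.subset_span (by simp [Ne.symm hvs])
          filter_upwards [hBd.ev_chi hsW hyW hnz] with ε hε _
          exact hε
      obtain ⟨ε, ⟨h1, h2⟩, hε⟩ := ((ev1.and ev2).and self_mem_nhdsWithin).exists
      have hε' : (0 : ℝ) < ε := hε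
      obtain ⟨m1, hm1⟩ := hint (y + ε • s)
        (Submodule.add_mem _ hyW (Submodule.smul_mem _ _ hsW)) (fun X hX => (h1 X hX).1)
      obtain ⟨m2, hm2⟩ := hint (y - ε • s)
        (Submodule.sub_mem _ hyW (Submodule.smul_mem _ _ hsW)) (fun X hX => (h1 X hX).2)
      refine ⟨m1 - m2, ?_⟩
      push_cast
      rw [← hm1, ← hm2, ← Finset.sum_sub_distrib]
      have hsub : (F H).image (insert s) ⊆ B := by
        intro d hd
        obtain ⟨c, hc, rfl⟩ := Finset.mem_image.1 hd
        exact (hBmem _).2 ⟨H, hH, c, hc, rfl⟩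
      rw [← Finset.sum_subset hsub]
      · have hsc : ∀ c ∈ F H, s ∉ c := fun c hc h => hsH (((hF H hH).mem c hc).2.sub h)
        rw [Finset.sum_image]
        · apply Finset.sum_congr rfl
          intro c hc
          have hsp := ((hF H hH).mem c hc).2.sp
          have e1 : chi (insert s c) (y + ε • s) = chi c y := by
            rw [add_comm, chi_insert hsp hsH hy, if_pos hε']
          have e2 : chi (insert s c) (y - ε • s) = 0 := by
            have : y - ε • s = (-ε) • s + y := by rw [neg_smul]; abel
            rw [this, chi_insert hsp hsH hy, if_neg (by linarith)]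
          rw [e1, e2]; ring
        · intro c hc c' hc' heq
          have := congrArg (fun z => Finset.erase z s) heq
          simp only [Finset.erase_insert (hsc c hc), Finset.erase_insert (hsc c' hc')] at this
          exact this
      · intro d hd hdn
        obtain ⟨h3, h4⟩ := h2 d hd hdn
        rw [h3, h4]; ring

end Pool.Agent.Work.MP_8bc176_co
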