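import Mathlib

set_option autoImplicit false

namespace Pool.Agent.Work.MP_8bc176_co

open Classical

variable {V : Type*} [AddCommGroup V] [Module ℝ V]

/-- `p` holds on `W` off finitely many proper subspaces of `W` -/
def Gen (W : Submodule ℝ V) (p : V → Prop) : Prop :=
  ∃ U : Finset (Submodule ℝ V), (∀ X ∈ U, X < W) ∧ ∀ y ∈ W, (∀ X ∈ U, y ∉ X) → p y

theorem Gen.of_forall {W : Submodule ℝ V} {p : V → Prop} (h : ∀ y ∈ W, p y) : Gen W p :=
  ⟨∅, by simp, fun y hy _ => h y hy⟩

theorem Gen.mono {W : Submodule ℝ V} {p q : V → Prop} (h : Gen W p) (hpq : ∀ y ∈ W, p y → q y) :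
    Gen W q := by
  obtain ⟨U, h1, h2⟩ := h
  exact ⟨U, h1, fun y hy h => hpq y hy (h2 y hy h)⟩

theorem Gen.and {W : Submodule ℝ V} {p q : V → Prop} (h : Gen W p) (h' : Gen W q) :
    Gen W (fun y => p y ∧ q y) := by
  obtain ⟨U, h1, h2⟩ := h
  obtain ⟨U', h1', h2'⟩ := h'
  refine ⟨U ∪ U', ?_, ?_⟩
  · intro X hX
    rcases Finset.mem_union.1 hX with h | h
    · exact h1 X h
    · exact h1' X h
  · intro y hy h
    exact ⟨h2 y hy (fun X hX => h X (Finset.mem_union_left _ hX)),
      h2' y hy (fun X hX => h X (Finset.mem_union_right _ hX))⟩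

theorem Gen.all {ι : Type*} {W : Submodule ℝ V} {p : ι → V → Prop} (s : Finset ι)
    (h : ∀ i ∈ s, Gen W (p i)) : Gen W (fun y => ∀ i ∈ s, p i y) := by
  induction s using Finset.induction_on with
  | empty => exact Gen.of_forall (by simp)
  | insert i s _ ih =>
    refine ((h i (by simp)).and (ih (fun j hj => h j (by simp [hj])))).mono ?_
    rintro y _ ⟨h1, h2⟩ j hj
    rcases Finset.mem_insert.1 hj with rfl | hj
    · exact h1
    · exact h2 j hj

/-- off the kernel of a functional not vanishing on `W` -/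
theorem Gen.ker {W : Submodule ℝ V} (φ : V →ₗ[ℝ] ℝ) {x : V} (hx : x ∈ W) (h : φ x ≠ 0) :
    Gen W (fun y => φ y ≠ 0) := by
  refine ⟨{W ⊓ LinearMap.ker φ}, ?_, ?_⟩
  · intro X hX
    rw [Finset.mem_singleton] at hX
    subst hX
    refine lt_of_le_of_ne inf_le_left ?_
    intro heq
    have : x ∈ W ⊓ LinearMap.ker φ := by rw [heq]; exact hx
    exact h (LinearMap.mem_ker.1 this.2)
  · intro y hy h2 h3
    exact h2 _ (Finset.mem_singleton_self _) ⟨hy, LinearMap.mem_ker.2 h3⟩

/-- lifting genericity along a projection -/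
theorem Gen.lift {H W : Submodule ℝ V} (hHW : H ≤ W) (π : V →ₗ[ℝ] V) (hπ : ∀ h ∈ H, π h = h)
    (hπW : ∀ y ∈ W, π y ∈ H) {p : V → Prop} (h : Gen H p) : Gen W (fun y => p (π y)) := by
  obtain ⟨U, h1, h2⟩ := h
  refine ⟨U.image (fun X => W ⊓ X.comap π), ?_, ?_⟩
  · intro X hX
    obtain ⟨Y, hY, rfl⟩ := Finset.mem_image.1 hX
    refine lt_of_le_of_ne inf_le_left ?_
    intro heq
    obtain ⟨x, hx, hxY⟩ := SetLike.exists_of_lt (h1 Y hY)
    have : x ∈ W ⊓ Y.comap π := by rw [heq]; exact hHW hx
    have h3 : π x ∈ Y := this.2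
    rw [hπ x hx] at h3
    exact hxY h3
  · intro y hy hX
    apply h2 _ (hπW y hy)
    intro Y hY hmem
    exact hX _ (Finset.mem_image_of_mem _ hY) ⟨hy, hmem⟩

/-- the open cone spanned by a finite set -/
def cone (b : Finset V) : Set V :=
  {y | ∃ c : V → ℝ, (∀ v ∈ b, 0 < c v) ∧ y = ∑ v ∈ b, c v • v}

noncomputable def chi (b : Finset V) (y : V) : ℝ := if y ∈ cone b then 1 else 0

/-- finite linearly independent sets spanning `W` -/
structure Bas (b : Finset V) (W : Submodule ℝ V) : Prop where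
  li : ∀ v ∈ b, v ∉ Submodule.span ℝ ((b.erase v : Finset V) : Set V)
  sp : Submodule.span ℝ (b : Set V) = W

theorem Bas.sub {b : Finset V} {W : Submodule ℝ V} (h : Bas b W) {v : V} (hv : v ∈ b) : v ∈ W := by
  rw [← h.sp]; exact Submodule.subset_span hv

/-- dual functionals -/
theorem Bas.exists_dual {b : Finset V} {W : Submodule ℝ V} (h : Bas b W) {v : V} (hv : v ∈ b) :
    ∃ φ : V →ₗ[ℝ] ℝ, φ v = 1 ∧ ∀ w ∈ b, w ≠ v → φ w = 0 := by
  obtain ⟨f, hf, hker⟩ := Submodule.exists_le_ker_of_notMem (h.li v hv)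
  refine ⟨(f v)⁻¹ • f, by simp [hf], ?_⟩
  intro w hw hne
  have : f w = 0 := hker (Submodule.subset_span (by simp [hw, hne]))
  simp [this]

noncomputable def du (b : Finset V) (v : V) : V →ₗ[ℝ] ℝ :=
  if h : ∃ φ : V →ₗ[ℝ] ℝ, φ v = 1 ∧ ∀ w ∈ b, w ≠ v → φ w = 0 then h.choose else 0

theorem Bas.du_self {b : Finset V} {W : Submodule ℝ V} (h : Bas b W) {v : V} (hv : v ∈ b) :
    du b v v = 1 := by
  unfold du; rw [dif_pos (h.exists_dual hv)]
  exact (h.exists_dual hv).choose_spec.1

theorem Bas.du_ne {b : Finset V} {W : Submodule ℝ V} (h : Bas b W) {v w : V} (hv : v ∈ b)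
    (hw : w ∈ b) (hne : w ≠ v) : du b v w = 0 := by
  unfold du; rw [dif_pos (h.exists_dual hv)]
  exact (h.exists_dual hv).choose_spec.2 w hw hne

theorem Bas.expand {b : Finset V} {W : Submodule ℝ V} (h : Bas b W) {y : V} (hy : y ∈ W) :
    y = ∑ v ∈ b, du b v y • v := by
  rw [← h.sp] at hy
  induction hy using Submodule.span_induction with
  | mem x hx =>
    have hx' : x ∈ b := hx
    rw [Finset.sum_eq_single x]
    · rw [h.du_self hx', one_smul]
    · intro v hv hne
      rw [h.du_ne hv hx' (Ne.symm hne), zero_smul]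
    · intro h; exact absurd hx' h
  | zero => simp
  | add x y _ _ hx hy =>
    conv_lhs => rw [hx, hy]
    rw [← Finset.sum_add_distrib]
    apply Finset.sum_congr rfl
    intro v _
    rw [map_add, add_smul]
  | smul a x _ hx =>
    conv_lhs => rw [hx]
    rw [Finset.smul_sum]
    apply Finset.sum_congr rfl
    intro v _
    rw [map_smul, smul_smul, smul_eq_mul]

theorem Bas.du_sum {b : Finset V} {W : Submodule ℝ V} (h : Bas b W) {v : V} (hv : v ∈ b)
    (c : V → ℝ) : du b v (∑ w ∈ b, c w • w) = c v := by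
  rw [map_sum, Finset.sum_eq_single v]
  · rw [map_smul, h.du_self hv, smul_eq_mul, mul_one]
  · intro w hw hne
    rw [map_smul, h.du_ne hv hw hne, smul_zero]
  · intro h; exact absurd hv h

theorem Bas.mem_cone {b : Finset V} {W : Submodule ℝ V} (h : Bas b W) {y : V} (hy : y ∈ W) :
    y ∈ cone b ↔ ∀ v ∈ b, 0 < du b v y := by
  constructor
  · rintro ⟨c, hc, rfl⟩ v hv
    rw [h.du_sum hv]
    exact hc v hv
  · intro h'
    exact ⟨fun v => du b v y, h', h.expand hy⟩

theorem Bas.cone_sub {b : Finset V} {W : Submodule ℝ V} (h : Bas b W) {y : V} (hy : y ∈ cone b) :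
    y ∈ W := by
  obtain ⟨c, _, rfl⟩ := hy
  exact Submodule.sum_mem _ (fun v hv => Submodule.smul_mem _ _ (h.sub hv))

/-- uniqueness of the decomposition along `s` -/
theorem decomp_unique {H : Submodule ℝ V} {s : V} (hs : s ∉ H) {c c' : ℝ} {x x' : V} (hx : x ∈ H)
    (hx' : x' ∈ H) (h : c • s + x = c' • s + x') : c = c' ∧ x = x' := by
  have h1 : (c - c') • s = x' - x := by
    rw [sub_smul]
    have := h
    rw [← sub_eq_zero] at this ⊢
    rw [← this]; abel
  have hcc : c = c' := by
    by_contra hne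
    have hne' : c - c' ≠ 0 := sub_ne_zero.2 hne
    apply hs
    have : s = (c - c')⁻¹ • (x' - x) := by
      rw [← h1, smul_smul, inv_mul_cancel₀ hne', one_smul]
    rw [this]
    exact Submodule.smul_mem _ _ (Submodule.sub_mem _ hx' hx)
  refine ⟨hcc, ?_⟩
  rw [hcc] at h
  exact add_left_cancel h

theorem mem_cone_insert {b : Finset V} {H : Submodule ℝ V} (hb : Submodule.span ℝ (b : Set V) = H)
    {s : V} (hs : s ∉ H) {c : ℝ} {x : V} (hx : x ∈ H) :
    c • s + x ∈ cone (insert s b) ↔ 0 < c ∧ x ∈ cone b := by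
  have hsb : s ∉ b := fun h => hs (hb ▸ Submodule.subset_span h)
  constructor
  · rintro ⟨d, hd, heq⟩
    rw [Finset.sum_insert hsb] at heq
    have hmem : ∑ v ∈ b, d v • v ∈ H := by
      rw [← hb]
      exact Submodule.sum_mem _ (fun v hv => Submodule.smul_mem _ _ (Submodule.subset_span hv))
    obtain ⟨h1, h2⟩ := decomp_unique hs hx hmem heq
    refine ⟨h1 ▸ hd s (by simp), d, fun v hv => hd v (by simp [hv]), h2⟩
  · rintro ⟨hc, d, hd, rfl⟩
    refine ⟨fun v => if v = s then c else d v, ?_, ?_⟩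
    · intro v hv
      by_cases hvs : v = s
      · simp [hvs, hc]
      · simp only [if_neg hvs]
        rcases Finset.mem_insert.1 hv with h | h
        · exact absurd h hvs
        · exact hd v h
    · rw [Finset.sum_insert hsb]
      simp only [if_true]
      congr 1
      apply Finset.sum_congr rfl
      intro v hv
      have : v ≠ s := by rintro rfl; exact hsb hv
      rw [if_neg this]

theorem chi_insert {b : Finset V} {H : Submodule ℝ V} (hb : Submodule.span ℝ (b : Set V) = H)
    {s : V} (hs : s ∉ H) {c : ℝ} {x : V} (hx : x ∈ H) :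
    chi (insert s b) (c • s + x) = if 0 < c then chi b x else 0 := by
  unfold chi
  by_cases hc : 0 < c
  · rw [if_pos hc]
    congr 1
    rw [mem_cone_insert hb hs hx]
    simp [hc]
  · rw [if_neg hc, if_neg]
    rw [mem_cone_insert hb hs hx]
    tauto

theorem Bas.ins {b : Finset V} {H : Submodule ℝ V} (h : Bas b H) {s : V} (hs : s ∉ H) :
    Bas (insert s b) (H ⊔ Submodule.span ℝ {s}) where
  li := by
    have hsb : s ∉ b := fun h' => hs (h.sub h')
    intro v hv hmem
    rcases Finset.mem_insert.1 hv with rfl | hvb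
    · rw [Finset.erase_insert hsb, h.sp] at hmem
      exact hs hmem
    · have hvs : v ≠ s := by rintro rfl; exact hsb hvb
      have : (Finset.erase (insert s b) v : Finset V) = insert s (b.erase v) := by
        ext z; simp only [Finset.mem_erase, Finset.mem_insert]
        constructor
        · tauto
        · rintro (rfl | h)
          · exact ⟨Ne.symm hvs, Or.inl rfl⟩
          · exact ⟨h.1, Or.inr h.2⟩
      rw [this, Finset.coe_insert, Submodule.mem_span_insert] at hmem
      obtain ⟨a, z, hz, heq⟩ := hmem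
      have hzH : z ∈ H := by
        rw [← h.sp]
        exact Submodule.span_mono (by simp) hz
      have h1 : (0 : ℝ) • s + v = a • s + z := by rw [zero_smul, zero_add]; exact heq
      obtain ⟨_, h3⟩ := decomp_unique hs (h.sub hvb) hzH h1
      rw [h3] at hvb
      exact h.li v (h3 ▸ hvb) (h3 ▸ hz)
  sp := by
    rw [Finset.coe_insert, Submodule.span_insert, h.sp, sup_comm]

theorem Bas.era {b : Finset V} {W : Submodule ℝ V} (h : Bas b W) {v : V} :
    Bas (b.erase v) (Submodule.span ℝ ((b.erase v : Finset V) : Set V)) where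
  li := by
    intro w hw hmem
    have hw' := Finset.mem_erase.1 hw
    apply h.li w hw'.2
    refine Submodule.span_mono ?_ hmem
    intro z hz
    simp only [Finset.coe_erase, Set.mem_diff, Finset.mem_coe, Set.mem_singleton_iff] at hz ⊢
    tauto
  sp := rfl

theorem Bas.du_span {b : Finset V} {W : Submodule ℝ V} (h : Bas b W) {v : V} (hv : v ∈ b) {y : V}
    (hy : y ∈ W) : du b v y = 0 ↔ y ∈ Submodule.span ℝ ((b.erase v : Finset V) : Set V) := by
  constructor
  · intro h0
    have := h.expand hy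
    rw [← Finset.add_sum_erase _ _ hv, h0, zero_smul, zero_add] at this
    rw [this]
    exact Submodule.sum_mem _ (fun w hw => Submodule.smul_mem _ _ (Submodule.subset_span hw))
  · intro hmem
    have hle : Submodule.span ℝ ((b.erase v : Finset V) : Set V) ≤ LinearMap.ker (du b v) := by
      rw [Submodule.span_le]
      intro w hw
      have hw' := Finset.mem_erase.1 hw
      exact h.du_ne hv hw'.2 hw'.1
    exact hle hmem

theorem Bas.linInd {b : Finset V} {W : Submodule ℝ V} (h : Bas b W) :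
    LinearIndependent ℝ (fun v : b => (v : V)) := by
  rw [linearIndependent_iff']
  intro s g hg i hi
  have h1 := congrArg (du b i.1) hg
  rw [map_sum, map_zero, Finset.sum_eq_single i] at h1
  · rw [map_smul, h.du_self i.2, smul_eq_mul, mul_one] at h1
    exact h1
  · intro j _ hne
    rw [map_smul, h.du_ne i.2 j.2 (fun h => hne (Subtype.ext h)), smul_zero]
  · intro h; exact absurd hi h

theorem Bas.finrank {b : Finset V} {W : Submodule ℝ V} (h : Bas b W) :
    Module.finrank ℝ W = b.card := by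
  rw [← h.sp]
  have := finrank_span_finset_eq_card (R := ℝ) (s := b) h.linInd
  exact this

theorem Bas.of_linInd {b : Finset V} (h : LinearIndependent ℝ (fun v : b => (v : V))) :
    Bas b (Submodule.span ℝ (b : Set V)) where
  li := by
    intro v hv hmem
    have := (linearIndependent_iff_notMem_span.1 h) ⟨v, hv⟩
    apply this
    refine Submodule.span_mono ?_ hmem
    intro w hw
    have hw' := Finset.mem_erase.1 hw
    exact ⟨⟨w, hw'.2⟩, ⟨by simp, by
      simp only [Set.mem_singleton_iff]; intro h; exact hw'.1 (congrArg Subtype.val h)⟩, rfl⟩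
  sp := rfl

end Pool.Agent.Work.MP_8bc176_co
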