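import Pool.Agent.Work.MP_8bc176_co.Lattice

set_option autoImplicit false

/-!
Triangles with vertices on the parabola `y = x ^ 2`.
-/

namespace Pool.Agent.Work.MP_8bc176_co.Hex

open MeasureTheory Filter Topology Set

/-- the point `(t, t ^ 2)` of the parabola -/
noncomputable def pt (t : ℝ) : E 2 := !₂[t, t ^ 2]

/-- the equation of the line through `pt a` and `pt b` -/
def L (a b : ℝ) (x : E 2) : ℝ := x 1 - (a + b) * x 0 + a * b

@[simp] theorem pt_zero (t : ℝ) : pt t 0 = t := by simp [pt]
@[simp] theorem pt_one (t : ℝ) : pt t 1 = t ^ 2 := by simp [pt]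

theorem L_pt (a b t : ℝ) : L a b (pt t) = (t - a) * (t - b) := by
  simp only [L, pt_zero, pt_one]; ring

theorem L_comm (a b : ℝ) (x : E 2) : L a b x = L b a x := by
  unfold L; ring

theorem L_aff (p a b c : ℝ) (x : E 2) :
    (b - a) * L p c x = (c - a) * L p b x - (c - b) * L p a x := by
  unfold L; ring

theorem pt_inj : Function.Injective pt := by
  intro a b h
  have := congrArg (fun x : E 2 => x 0) h
  simpa using this

/-- the triangle with vertices `pt i`, `pt j`, `pt k` -/
noncomputable def tri (i j k : ℝ) : Finset (E 2) := {pt i, pt j, pt k}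

theorem continuous_L (a b : ℝ) : Continuous (L a b) := by
  unfold L
  fun_prop

theorem L_comb (a b : ℝ) {ι : Type*} (s : Finset ι) (w : ι → ℝ) (z : ι → E 2)
    (hw : ∑ i ∈ s, w i = 1) : L a b (∑ i ∈ s, w i • z i) = ∑ i ∈ s, w i * L a b (z i) := by
  have h0 : ∀ n : Fin 2, (∑ i ∈ s, w i • z i : E 2) n = ∑ i ∈ s, w i * z i n := by
    intro n
    simp
  have h2 : ∀ i, w i * L a b (z i) = w i * z i 1 - (a + b) * (w i * z i 0) + w i * (a * b) := by
    intro i; unfold L; ring
  simp only [h2]
  rw [Finset.sum_add_distrib, Finset.sum_sub_distrib, ← Finset.mul_sum, ← Finset.sum_mul, hw,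
    one_mul]
  unfold L
  rw [h0, h0]

theorem convex_ge (a b : ℝ) : Convex ℝ {x : E 2 | 0 ≤ L a b x} := by
  intro x hx y hy s t hs ht hst
  simp only [Set.mem_ofPred_eq] at *
  have : L a b (s • x + t • y) = s * L a b x + t * L a b y := by
    have e : a * b = s * (a * b) + t * (a * b) := by rw [← add_mul, hst, one_mul]
    unfold L
    simp only [PiLp.add_apply, PiLp.smul_apply, smul_eq_mul]
    linear_combination e
  rw [this]
  positivity

theorem convex_le (a b : ℝ) : Convex ℝ {x : E 2 | L a b x ≤ 0} := by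
  intro x hx y hy s t hs ht hst
  simp only [Set.mem_ofPred_eq] at *
  have : L a b (s • x + t • y) = s * L a b x + t * L a b y := by
    have e : a * b = s * (a * b) + t * (a * b) := by rw [← add_mul, hst, one_mul]
    unfold L
    simp only [PiLp.add_apply, PiLp.smul_apply, smul_eq_mul]
    linear_combination e
  rw [this]
  have h1 := mul_nonpos_of_nonneg_of_nonpos hs hx
  have h2 := mul_nonpos_of_nonneg_of_nonpos ht hy
  linarith

theorem mem_tri {i j k : ℝ} (hij : i < j) (hjk : j < k) (x : E 2) :
    x ∈ convexHull ℝ (tri i j k : Set (E 2)) ↔ 0 ≤ L i j x ∧ 0 ≤ L j k x ∧ L i k x ≤ 0 := by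
  constructor
  · intro hx
    have h1 : convexHull ℝ (tri i j k : Set (E 2)) ⊆
        {x | 0 ≤ L i j x} ∩ ({x | 0 ≤ L j k x} ∩ {x | L i k x ≤ 0}) := by
      apply convexHull_min
      · intro y hy
        simp only [tri, Finset.coe_insert, Finset.coe_singleton, mem_insert_iff,
          mem_singleton_iff] at hy
        simp only [mem_inter_iff, Set.mem_ofPred_eq]
        rcases hy with rfl | rfl | rfl <;> simp only [L_pt] <;> refine ⟨?_, ?_, ?_⟩ <;> nlinarith
      · exact (convex_ge _ _).inter ((convex_ge _ _).inter (convex_le _ _))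
    exact h1 hx
  · rintro ⟨h1, h2, h3⟩
    have hik : i < k := hij.trans hjk
    have d1 : 0 < (j - i) * (k - i) := mul_pos (by linarith) (by linarith)
    have d2 : 0 < (j - i) * (k - j) := mul_pos (by linarith) (by linarith)
    have d3 : 0 < (k - i) * (k - j) := mul_pos (by linarith) (by linarith)
    set α := L j k x / ((j - i) * (k - i)) with hα
    set β := - L i k x / ((j - i) * (k - j)) with hβ
    set γ := L i j x / ((k - i) * (k - j)) with hγ
    have hα0 : 0 ≤ α := div_nonneg h2 d1.le
    have hβ0 : 0 ≤ β := div_nonneg (by linarith) d2.le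
    have hγ0 : 0 ≤ γ := div_nonneg h1 d3.le
    have e1 : j - i ≠ 0 := by intro h; linarith
    have e2 : k - i ≠ 0 := by intro h; linarith
    have e3 : k - j ≠ 0 := by intro h; linarith
    have hsum : α + β + γ = 1 := by
      rw [hα, hβ, hγ]
      unfold L
      field_simp
      ring
    have hx0 : x 0 = α * i + β * j + γ * k := by
      rw [hα, hβ, hγ]
      unfold L
      field_simp
      ring
    have hx1 : x 1 = α * i ^ 2 + β * j ^ 2 + γ * k ^ 2 := by
      rw [hα, hβ, hγ]
      unfold L
      field_simp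
      ring
    have hx : x = α • pt i + β • pt j + γ • pt k := by
      ext n
      fin_cases n
      · simp [hx0]
      · simp [hx1]
    rw [hx]
    have hc := convex_convexHull ℝ (tri i j k : Set (E 2))
    have hi : pt i ∈ convexHull ℝ (tri i j k : Set (E 2)) := subset_convexHull ℝ _ (by simp [tri])
    have hj : pt j ∈ convexHull ℝ (tri i j k : Set (E 2)) := subset_convexHull ℝ _ (by simp [tri])
    have hk : pt k ∈ convexHull ℝ (tri i j k : Set (E 2)) := subset_convexHull ℝ _ (by simp [tri])
    have := hc.sum_mem (t := Finset.univ) (w := ![α, β, γ]) (z := ![pt i, pt j, pt k])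
      (by intro n _; fin_cases n <;> simp [hα0, hβ0, hγ0])
      (by simp [Fin.sum_univ_three]; linarith)
      (by intro n _; fin_cases n <;> simp [hi, hj, hk])
    simpa [Fin.sum_univ_three] using this

theorem tri_card {i j k : ℝ} (hij : i < j) (hjk : j < k) : (tri i j k).card = 3 := by
  unfold tri
  rw [Finset.card_insert_of_notMem, Finset.card_insert_of_notMem, Finset.card_singleton]
  · simp only [Finset.mem_singleton]
    intro h; have := pt_inj h; linarith
  · simp only [Finset.mem_insert, Finset.mem_singleton, not_or]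
    exact ⟨fun h => by have := pt_inj h; linarith, fun h => by have := pt_inj h; linarith⟩

theorem isSimplex_tri {i j k : ℝ} (hij : i < j) (hjk : j < k) : IsSimplex (tri i j k) := by
  refine ⟨tri_card hij hjk, ?_⟩
  have h1 : AffineIndependent ℝ ![pt i, pt j, pt k] := by
    rw [affineIndependent_iff_of_fintype]
    intro w hw hs
    rw [Finset.weightedVSub_eq_linear_combination _ hw] at hs
    have h0 := congrArg (fun x : E 2 => x 0) hs
    have h1 := congrArg (fun x : E 2 => x 1) hs
    simp only [Fin.sum_univ_three, Matrix.cons_val_zero, Matrix.cons_val_one, Matrix.cons_val,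
      PiLp.add_apply, PiLp.smul_apply, pt_zero, pt_one, smul_eq_mul, PiLp.zero_apply] at h0 h1
    rw [Fin.sum_univ_three] at hw
    have d1 : (j - i) * (k - i) ≠ 0 := mul_ne_zero (by intro h; linarith) (by intro h; linarith)
    have d2 : (j - i) * (k - j) ≠ 0 := mul_ne_zero (by intro h; linarith) (by intro h; linarith)
    have d3 : (k - i) * (k - j) ≠ 0 := mul_ne_zero (by intro h; linarith) (by intro h; linarith)
    have w0 : w 0 = 0 := by
      have : w 0 * ((j - i) * (k - i)) = 0 := by linear_combination h1 - (j + k) * h0 + j * k * hw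
      exact (mul_eq_zero.1 this).resolve_right d1
    have w1 : w 1 = 0 := by
      have : w 1 * ((j - i) * (k - j)) = 0 := by linear_combination -h1 + (i + k) * h0 - i * k * hw
      exact (mul_eq_zero.1 this).resolve_right d2
    have w2 : w 2 = 0 := by
      have : w 2 * ((k - i) * (k - j)) = 0 := by linear_combination h1 - (i + j) * h0 + i * j * hw
      exact (mul_eq_zero.1 this).resolve_right d3
    intro n
    fin_cases n
    · exact w0
    · exact w1
    · exact w2
  have h2 := h1.range
  have h3 : Set.range ![pt i, pt j, pt k] = (tri i j k : Set (E 2)) := by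
    ext y
    simp only [Set.mem_range, tri, Finset.coe_insert, Finset.coe_singleton, mem_insert_iff,
      mem_singleton_iff]
    constructor
    · rintro ⟨n, rfl⟩
      fin_cases n <;> simp
    · rintro (rfl | rfl | rfl)
      · exact ⟨0, rfl⟩
      · exact ⟨1, rfl⟩
      · exact ⟨2, rfl⟩
  rw [h3] at h2
  exact h2

/-- the lines are null sets -/
theorem line_null (a b : ℝ) : volume {x : E 2 | L a b x = 0} = 0 := by
  let φ : E 2 × ℝ →ₗ[ℝ] ℝ :=
    { toFun := fun y => y.1 1 - (a + b) * y.1 0 + a * b * y.2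
      map_add' := by intro y z; simp; ring
      map_smul' := by intro c y; simp; ring }
  have h := null_sub (LinearMap.ker φ) (by
    intro h
    have h1 : φ (EuclideanSpace.single 1 (1 : ℝ), 0) = 0 := by
      have : (EuclideanSpace.single 1 (1 : ℝ), (0 : ℝ)) ∈ LinearMap.ker φ := by rw [h]; trivial
      exact this
    simp [φ] at h1)
  have e : {x : E 2 | up x ∈ LinearMap.ker φ} = {x : E 2 | L a b x = 0} := by
    ext x
    simp [φ, up, L]
  rw [e] at h
  exact h

theorem line_ae (a b : ℝ) : ∀ᵐ x : E 2, L a b x ≠ 0 := by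
  rw [ae_iff]
  simpa using line_null a b

theorem box_ae {p : E 2 → Prop} (hp : ∀ᵐ x : E 2, p x) (a b : ℝ) :
    ∃ x : E 2, (a - 1 / 20 < x 0 ∧ x 0 < a + 1 / 20) ∧ (b - 1 / 20 < x 1 ∧ x 1 < b + 1 / 20) ∧
      p x := by
  have ho : IsOpen {x : E 2 | (a - 1 / 20 < x 0 ∧ x 0 < a + 1 / 20) ∧
      (b - 1 / 20 < x 1 ∧ x 1 < b + 1 / 20)} := by
    have c0 : Continuous fun x : E 2 => x 0 := by fun_prop
    have c1 : Continuous fun x : E 2 => x 1 := by fun_prop
    exact ((isOpen_lt continuous_const c0).inter (isOpen_lt c0 continuous_const)).inter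
      ((isOpen_lt continuous_const c1).inter (isOpen_lt c1 continuous_const))
  have hne : {x : E 2 | (a - 1 / 20 < x 0 ∧ x 0 < a + 1 / 20) ∧
      (b - 1 / 20 < x 1 ∧ x 1 < b + 1 / 20)}.Nonempty := by
    refine ⟨!₂[a, b], ?_⟩
    have e0 : (!₂[a, b] : E 2) 0 = a := by simp
    have e1 : (!₂[a, b] : E 2) 1 = b := by simp
    show (a - 1 / 20 < (!₂[a, b] : E 2) 0 ∧ (!₂[a, b] : E 2) 0 < a + 1 / 20) ∧
      (b - 1 / 20 < (!₂[a, b] : E 2) 1 ∧ (!₂[a, b] : E 2) 1 < b + 1 / 20)
    rw [e0, e1]
    refine ⟨⟨by linarith, by linarith⟩, by linarith, by linarith⟩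
  by_contra hcon
  push Not at hcon
  have h0 : volume {x : E 2 | (a - 1 / 20 < x 0 ∧ x 0 < a + 1 / 20) ∧
      (b - 1 / 20 < x 1 ∧ x 1 < b + 1 / 20)} = 0 := by
    apply measure_mono_null _ (ae_iff.1 hp)
    intro x hx
    exact hcon x hx.1 hx.2
  exact ho.measure_ne_zero volume hne h0

end Pool.Agent.Work.MP_8bc176_co.Hex
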