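import Pool.Agent.Work.MP_8bc176_co.Hex1

set_option autoImplicit false

/-!
Relations between the measures of the triangles; the measure of the hexagon.
-/

namespace Pool.Agent.Work.MP_8bc176_co.Hex

open MeasureTheory Filter Topology Set

theorem ext_pos {p a b c : ℝ} {x : E 2} (hab : a < b) (hbc : b < c) (h1 : L p a x ≤ 0)
    (h2 : 0 ≤ L p b x) : 0 ≤ L p c x := by
  have h := L_aff p a b c x
  have h3 : 0 ≤ (b - a) * L p c x := by
    rw [h]
    have := mul_nonneg (show (0 : ℝ) ≤ c - a by linarith) h2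
    have := mul_nonpos_of_nonneg_of_nonpos (show (0 : ℝ) ≤ c - b by linarith) h1
    linarith
  exact nonneg_of_mul_nonneg_right h3 (by linarith)

theorem ext_neg {p a b c : ℝ} {x : E 2} (hab : a < b) (hbc : b < c) (h1 : 0 ≤ L p a x)
    (h2 : L p b x ≤ 0) : L p c x ≤ 0 := by
  have h := L_aff p a b c x
  have h3 : 0 ≤ (b - a) * (- L p c x) := by
    have := mul_nonneg (show (0 : ℝ) ≤ c - b by linarith) h1
    have := mul_nonpos_of_nonneg_of_nonpos (show (0 : ℝ) ≤ c - a by linarith) h2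
    linarith
  have := nonneg_of_mul_nonneg_right h3 (by linarith)
  linarith

theorem back_pos {p a b c : ℝ} {x : E 2} (hab : a < b) (hbc : b < c) (h1 : 0 ≤ L p b x)
    (h2 : L p c x ≤ 0) : 0 ≤ L p a x := by
  have h := L_aff p a b c x
  have h3 : 0 ≤ (c - b) * L p a x := by
    have := mul_nonneg (show (0 : ℝ) ≤ c - a by linarith) h1
    have := mul_nonpos_of_nonneg_of_nonpos (show (0 : ℝ) ≤ b - a by linarith) h2
    linarith
  exact nonneg_of_mul_nonneg_right h3 (by linarith)

theorem back_neg {p a b c : ℝ} {x : E 2} (hab : a < b) (hbc : b < c) (h1 : L p b x ≤ 0)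
    (h2 : 0 ≤ L p c x) : L p a x ≤ 0 := by
  have h := L_aff p a b c x
  have h3 : 0 ≤ (c - b) * (- L p a x) := by
    have := mul_nonpos_of_nonneg_of_nonpos (show (0 : ℝ) ≤ c - a by linarith) h1
    have := mul_nonneg (show (0 : ℝ) ≤ b - a by linarith) h2
    linarith
  have := nonneg_of_mul_nonneg_right h3 (by linarith)
  linarith

theorem mid_pos {p a b c : ℝ} {x : E 2} (hab : a < b) (hbc : b < c) (h1 : 0 ≤ L p a x)
    (h2 : 0 ≤ L p c x) : 0 ≤ L p b x := by
  have h := L_aff p a b c x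
  have h3 : 0 ≤ (c - a) * L p b x := by
    have := mul_nonneg (show (0 : ℝ) ≤ c - b by linarith) h1
    have := mul_nonneg (show (0 : ℝ) ≤ b - a by linarith) h2
    linarith
  exact nonneg_of_mul_nonneg_right h3 (by linarith)

/-- the closed triangle -/
noncomputable def T (i j k : ℝ) : Set (E 2) := convexHull ℝ (tri i j k : Set (E 2))

theorem mem_T {i j k : ℝ} (hij : i < j) (hjk : j < k) {x : E 2} :
    x ∈ T i j k ↔ 0 ≤ L i j x ∧ 0 ≤ L j k x ∧ L i k x ≤ 0 := mem_tri hij hjk x

theorem T_compact (i j k : ℝ) : IsCompact (T i j k) :=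
  (tri i j k).finite_toSet.isCompact_convexHull ℝ

theorem integrable_of_compact {A : Set (E 2)} (hA : IsCompact A) :
    Integrable (A.indicator (fun _ => (1 : ℝ))) volume := by
  rw [integrable_indicator_iff hA.measurableSet]
  exact integrableOn_const (hs := hA.measure_lt_top.ne)

/-- additivity of the standard measure -/
theorem std_union {A B : Set (E 2)} (hA : IsCompact A) (hB : IsCompact B) (a b : ℝ)
    (h : ∀ x, x ∈ A → x ∈ B → L a b x = 0) :
    stdMeasure (A ∪ B) = stdMeasure A + stdMeasure B := by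
  unfold stdMeasure
  rw [← withDensityᵥ_add (integrable_of_compact hA) (integrable_of_compact hB)]
  apply WithDensityᵥEq.congr_ae
  filter_upwards [line_ae a b] with x hx
  simp only [Pi.add_apply]
  by_cases h1 : x ∈ A
  · by_cases h2 : x ∈ B
    · exact absurd (h x h1 h2) hx
    · rw [indicator_of_mem (mem_union_left _ h1), indicator_of_mem h1, indicator_of_notMem h2,
        add_zero]
  · by_cases h2 : x ∈ B
    · rw [indicator_of_mem (mem_union_right _ h2), indicator_of_notMem h1, indicator_of_mem h2,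
        zero_add]
    · rw [indicator_of_notMem (by rintro (h | h); exacts [h1 h, h2 h]), indicator_of_notMem h1,
        indicator_of_notMem h2, zero_add]

/-- the measure of the triangle -/
noncomputable def m (i j k : ℝ) : SignedMeasure (E 2) := simplexMeasure (tri i j k)

theorem m_eq (i j k : ℝ) : m i j k = stdMeasure (T i j k) := rfl

/-- the two triangulations of a quadrangle -/
theorem m_quad {i j k l : ℝ} (hij : i < j) (hjk : j < k) (hkl : k < l) :
    m i j k + m i k l = m i j l + m j k l := by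
  have hik := hij.trans hjk
  have hjl := hjk.trans hkl
  have hil := hij.trans hjl
  rw [m_eq, m_eq, m_eq, m_eq,
    ← std_union (T_compact i j k) (T_compact i k l) i k (fun x h1 h2 => by
      rw [mem_T hij hjk] at h1; rw [mem_T hik hkl] at h2; exact le_antisymm h1.2.2 h2.1),
    ← std_union (T_compact i j l) (T_compact j k l) j l (fun x h1 h2 => by
      rw [mem_T hij hjl] at h1; rw [mem_T hjk hkl] at h2; exact le_antisymm h2.2.2 h1.2.1)]
  congr 1
  ext x
  simp only [mem_union, mem_T hij hjk, mem_T hik hkl, mem_T hij hjl, mem_T hjk hkl]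
  constructor
  · intro h
    have hQ : 0 ≤ L i j x ∧ 0 ≤ L j k x ∧ 0 ≤ L k l x ∧ L i l x ≤ 0 := by
      rcases h with ⟨h1, h2, h3⟩ | ⟨h1, h2, h3⟩
      · refine ⟨h1, h2, ?_, ext_neg hjk hkl h1 h3⟩
        have h3' : L k i x ≤ 0 := by rw [L_comm]; exact h3
        have h2' : 0 ≤ L k j x := by rw [L_comm]; exact h2
        exact ext_pos hij hjl h3' h2'
      · refine ⟨back_pos hjk hkl h1 h3, ?_, h2, h3⟩
        have h1' : 0 ≤ L k i x := by rw [L_comm]; exact h1
        have := mid_pos hij hjl h1' h2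
        rw [L_comm]; exact this
    rcases le_total 0 (L j l x) with h5 | h5
    · exact Or.inl ⟨hQ.1, h5, hQ.2.2.2⟩
    · exact Or.inr ⟨hQ.2.1, hQ.2.2.1, h5⟩
  · intro h
    have hQ : 0 ≤ L i j x ∧ 0 ≤ L j k x ∧ 0 ≤ L k l x ∧ L i l x ≤ 0 := by
      rcases h with ⟨h1, h2, h3⟩ | ⟨h1, h2, h3⟩
      · have h1' : 0 ≤ L j i x := by rw [L_comm]; exact h1
        have h2' : 0 ≤ L l j x := by rw [L_comm]; exact h2
        have h3' : L l i x ≤ 0 := by rw [L_comm]; exact h3
        refine ⟨h1, mid_pos hik hkl h1' h2, ?_, h3⟩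
        rw [L_comm]; exact ext_pos hij hjk h3' h2'
      · have h2' : 0 ≤ L l k x := by rw [L_comm]; exact h2
        have h3' : L l j x ≤ 0 := by rw [L_comm]; exact h3
        refine ⟨?_, h1, h2, ?_⟩
        · rw [L_comm]; exact back_pos hik hkl h1 h3
        · rw [L_comm]; exact back_neg hij hjk h3' h2'
    rcases le_total 0 (L i k x) with h5 | h5
    · exact Or.inr ⟨h5, hQ.2.2.1, hQ.2.2.2⟩
    · exact Or.inl ⟨hQ.1, hQ.2.1, h5⟩

/-- the hexagon -/
noncomputable def Hx : Set (E 2) := convexHull ℝ {pt 0, pt 1, pt 2, pt 3, pt 4, pt 5}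

theorem Hx_eq : Hx = ((T 0 1 2 ∪ T 0 2 3) ∪ T 0 3 4) ∪ T 0 4 5 := by
  apply Subset.antisymm
  · have h1 : Hx ⊆ {x | 0 ≤ L 0 1 x} ∩ ({x | 0 ≤ L 1 2 x} ∩ ({x | 0 ≤ L 2 3 x} ∩
        ({x | 0 ≤ L 3 4 x} ∩ ({x | 0 ≤ L 4 5 x} ∩ {x | L 0 5 x ≤ 0})))) := by
      apply convexHull_min
      · intro y hy
        simp only [mem_insert_iff, mem_singleton_iff] at hy
        simp only [mem_inter_iff, Set.mem_ofPred_eq]
        rcases hy with rfl | rfl | rfl | rfl | rfl | rfl <;> simp only [L_pt] <;>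
          refine ⟨?_, ?_, ?_, ?_, ?_, ?_⟩ <;> norm_num
      · exact (convex_ge _ _).inter ((convex_ge _ _).inter ((convex_ge _ _).inter
          ((convex_ge _ _).inter ((convex_ge _ _).inter (convex_le _ _)))))
    intro x hx
    obtain ⟨a1, a2, a3, a4, a5, a6⟩ := h1 hx
    simp only [Set.mem_ofPred_eq] at a1 a2 a3 a4 a5 a6
    simp only [mem_union]
    rcases le_total (L 0 2 x) 0 with b | b
    · exact Or.inl (Or.inl (Or.inl ((mem_T (by norm_num) (by norm_num)).2 ⟨a1, a2, b⟩)))
    rcases le_total (L 0 3 x) 0 with c | c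
    · exact Or.inl (Or.inl (Or.inr ((mem_T (by norm_num) (by norm_num)).2 ⟨b, a3, c⟩)))
    rcases le_total (L 0 4 x) 0 with d | d
    · exact Or.inl (Or.inr ((mem_T (by norm_num) (by norm_num)).2 ⟨c, a4, d⟩))
    · exact Or.inr ((mem_T (by norm_num) (by norm_num)).2 ⟨d, a5, a6⟩)
  · have h : ∀ i j k : ℝ, pt i ∈ ({pt 0, pt 1, pt 2, pt 3, pt 4, pt 5} : Set (E 2)) →
        pt j ∈ ({pt 0, pt 1, pt 2, pt 3, pt 4, pt 5} : Set (E 2)) →
        pt k ∈ ({pt 0, pt 1, pt 2, pt 3, pt 4, pt 5} : Set (E 2)) → T i j k ⊆ Hx := by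
      intro i j k hi hj hk
      apply convexHull_mono
      intro y hy
      simp only [tri, Finset.coe_insert, Finset.coe_singleton, mem_insert_iff,
        mem_singleton_iff] at hy
      rcases hy with rfl | rfl | rfl <;> assumption
    refine union_subset (union_subset (union_subset ?_ ?_) ?_) ?_ <;> apply h <;> simp

theorem Hx_measure : stdMeasure Hx = m 0 1 2 + m 0 2 3 + m 0 3 4 + m 0 4 5 := by
  have n01 : (0 : ℝ) < 1 := by norm_num
  have n12 : (1 : ℝ) < 2 := by norm_num
  have n23 : (2 : ℝ) < 3 := by norm_num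
  have n34 : (3 : ℝ) < 4 := by norm_num
  have n45 : (4 : ℝ) < 5 := by norm_num
  have n02 : (0 : ℝ) < 2 := by norm_num
  have n03 : (0 : ℝ) < 3 := by norm_num
  have n04 : (0 : ℝ) < 4 := by norm_num
  rw [Hx_eq, std_union (((T_compact _ _ _).union (T_compact _ _ _)).union (T_compact _ _ _))
      (T_compact _ _ _) 0 4, std_union ((T_compact _ _ _).union (T_compact _ _ _))
      (T_compact _ _ _) 0 3, std_union (T_compact _ _ _) (T_compact _ _ _) 0 2]
  · rfl
  · intro x h1 h2
    rw [mem_T n01 n12] at h1; rw [mem_T n02 n23] at h2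
    exact le_antisymm h1.2.2 h2.1
  · intro x h1 h2
    rw [mem_T n03 n34] at h2
    rcases h1 with h1 | h1
    · rw [mem_T n01 n12] at h1
      obtain ⟨a1, a2, a3⟩ := h1
      obtain ⟨b1, b2, b3⟩ := h2
      unfold L at *
      linarith
    · rw [mem_T n02 n23] at h1
      exact le_antisymm h1.2.2 h2.1
  · intro x h1 h2
    rw [mem_T n04 n45] at h2
    rcases h1 with (h1 | h1) | h1
    · rw [mem_T n01 n12] at h1
      obtain ⟨a1, a2, a3⟩ := h1
      obtain ⟨b1, b2, b3⟩ := h2
      unfold L at *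
      linarith
    · rw [mem_T n02 n23] at h1
      obtain ⟨a1, a2, a3⟩ := h1
      obtain ⟨b1, b2, b3⟩ := h2
      unfold L at *
      linarith
    · rw [mem_T n03 n34] at h1
      exact le_antisymm h1.2.2 h2.1

end Pool.Agent.Work.MP_8bc176_co.Hex
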