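import Pool.Agent.Work.MP_8bc176_co.Hex2

set_option autoImplicit false

/-!
Linear independence of the measures of the ten triangles.
-/

namespace Pool.Agent.Work.MP_8bc176_co.Hex

open MeasureTheory Filter Topology Set

/-- the ten triangles of the projective plane with six vertices -/
noncomputable def R10 : Fin 10 → Finset (E 2) :=
  ![tri 0 1 2, tri 0 1 4, tri 0 2 3, tri 0 3 5, tri 0 4 5, tri 1 2 5, tri 1 3 4, tri 1 3 5, tri 2 3 4, tri 2 4 5]

/-- indicator function of the triangle -/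
noncomputable def ind (i j k : ℝ) (x : E 2) : ℝ := (T i j k).indicator (fun _ => (1 : ℝ)) x

theorem ind_one {i j k : ℝ} {x : E 2} (hij : i < j) (hjk : j < k) (h1 : 0 ≤ L i j x)
    (h2 : 0 ≤ L j k x) (h3 : L i k x ≤ 0) : ind i j k x = 1 :=
  indicator_of_mem ((mem_T hij hjk).2 ⟨h1, h2, h3⟩) _

theorem ind_zero1 {i j k : ℝ} {x : E 2} (hij : i < j) (hjk : j < k) (h : L i j x < 0) :
    ind i j k x = 0 :=
  indicator_of_notMem (fun hx => absurd ((mem_T hij hjk).1 hx).1 (not_le.2 h)) _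

theorem ind_zero2 {i j k : ℝ} {x : E 2} (hij : i < j) (hjk : j < k) (h : L j k x < 0) :
    ind i j k x = 0 :=
  indicator_of_notMem (fun hx => absurd ((mem_T hij hjk).1 hx).2.1 (not_le.2 h)) _

theorem ind_zero3 {i j k : ℝ} {x : E 2} (hij : i < j) (hjk : j < k) (h : 0 < L i k x) :
    ind i j k x = 0 :=
  indicator_of_notMem (fun hx => absurd ((mem_T hij hjk).1 hx).2.2 (not_le.2 h)) _

theorem density_sum {ι : Type*} (s : Finset ι) (g : ι → ℝ) (A : ι → Set (E 2))
    (hA : ∀ i, IsCompact (A i)) :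
    Integrable (fun x => ∑ i ∈ s, g i * (A i).indicator (fun _ => (1 : ℝ)) x) volume ∧
    (volume : Measure (E 2)).withDensityᵥ
      (fun x => ∑ i ∈ s, g i * (A i).indicator (fun _ => (1 : ℝ)) x) =
      ∑ i ∈ s, g i • stdMeasure (A i) := by
  classical
  induction s using Finset.induction_on with
  | empty =>
    simp only [Finset.sum_empty]
    exact ⟨integrable_zero _ _ _, withDensityᵥ_zero⟩
  | insert i s hi ih =>
    have e : (fun x => ∑ i ∈ insert i s, g i * (A i).indicator (fun _ => (1 : ℝ)) x) =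
        (g i • (A i).indicator (fun _ => (1 : ℝ))) +
          (fun x => ∑ i ∈ s, g i * (A i).indicator (fun _ => (1 : ℝ)) x) := by
      funext x
      simp [Finset.sum_insert hi]
    have h1 : Integrable (g i • (A i).indicator (fun _ => (1 : ℝ))) volume :=
      (integrable_of_compact (hA i)).smul _
    rw [e]
    refine ⟨h1.add ih.1, ?_⟩
    rw [withDensityᵥ_add h1 ih.1, ih.2, withDensityᵥ_smul, Finset.sum_insert hi]
    rfl

theorem sum10 (F : Fin 10 → ℝ) : ∑ i, F i =
    F 0 + F 1 + F 2 + F 3 + F 4 + F 5 + F 6 + F 7 + F 8 + F 9 := by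
  rw [Fin.sum_univ_castSucc, Fin.sum_univ_castSucc, Fin.sum_univ_eight]
  rfl

theorem hae_of (g : Fin 10 → ℝ) (hg : ∑ n, g n • simplexMeasure (R10 n) = 0) :
    ∀ᵐ x : E 2, g 0 * ind 0 1 2 x + g 1 * ind 0 1 4 x + g 2 * ind 0 2 3 x + g 3 * ind 0 3 5 x + g 4 * ind 0 4 5 x + g 5 * ind 1 2 5 x + g 6 * ind 1 3 4 x + g 7 * ind 1 3 5 x + g 8 * ind 2 3 4 x + g 9 * ind 2 4 5 x = 0 := by
  have h := density_sum Finset.univ g (fun n => convexHull ℝ (R10 n : Set (E 2)))
    (fun n => (R10 n).finite_toSet.isCompact_convexHull ℝ)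
  have h2 : (fun x => ∑ i, g i * (convexHull ℝ (R10 i : Set (E 2))).indicator
      (fun _ => (1 : ℝ)) x) =ᵐ[volume] (0 : E 2 → ℝ) := by
    apply h.1.ae_eq_of_withDensityᵥ_eq (integrable_zero _ _ _)
    rw [h.2]
    exact hg.trans withDensityᵥ_zero.symm
  filter_upwards [h2] with x hx
  rw [Pi.zero_apply, sum10] at hx
  exact hx

end Pool.Agent.Work.MP_8bc176_co.Hex
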