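import Pool.Agent.Work.MP_8bc176_co.Hex3

set_option autoImplicit false

/-!
Linear independence of the measures of the ten triangles.
-/

namespace Pool.Agent.Work.MP_8bc176_co.Hex

open MeasureTheory Filter Topology Set

theorem bx0 {x : E 2} (a1 : 11 / 5 - 1 / 20 < x 0) (a2 : x 0 < 11 / 5 + 1 / 20)
    (b1 : 49 / 5 - 1 / 20 < x 1) (b2 : x 1 < 49 / 5 + 1 / 20) :
    ind 0 1 2 x = 0 ∧
    ind 0 1 4 x = 0 ∧
    ind 0 2 3 x = 0 ∧
    ind 0 3 5 x = 1 ∧
    ind 0 4 5 x = 1 ∧
    ind 1 2 5 x = 0 ∧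
    ind 1 3 4 x = 0 ∧
    ind 1 3 5 x = 0 ∧
    ind 2 3 4 x = 0 ∧
    ind 2 4 5 x = 0 := by
  refine ⟨?_, ?_, ?_, ?_, ?_, ?_, ?_, ?_, ?_, ?_⟩
  · exact ind_zero3 (by norm_num) (by norm_num) (by unfold L; linarith)
  · exact ind_zero3 (by norm_num) (by norm_num) (by unfold L; linarith)
  · exact ind_zero3 (by norm_num) (by norm_num) (by unfold L; linarith)
  · exact ind_one (by norm_num) (by norm_num) (by unfold L; linarith)
      (by unfold L; linarith) (by unfold L; linarith)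
  · exact ind_one (by norm_num) (by norm_num) (by unfold L; linarith)
      (by unfold L; linarith) (by unfold L; linarith)
  · exact ind_zero3 (by norm_num) (by norm_num) (by unfold L; linarith)
  · exact ind_zero3 (by norm_num) (by norm_num) (by unfold L; linarith)
  · exact ind_zero3 (by norm_num) (by norm_num) (by unfold L; linarith)
  · exact ind_zero3 (by norm_num) (by norm_num) (by unfold L; linarith)
  · exact ind_zero3 (by norm_num) (by norm_num) (by unfold L; linarith)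

theorem bx1 {x : E 2} (a1 : 5 / 6 - 1 / 20 < x 0) (a2 : x 0 < 5 / 6 + 1 / 20)
    (b1 : 7 / 6 - 1 / 20 < x 1) (b2 : x 1 < 7 / 6 + 1 / 20) :
    ind 0 1 2 x = 1 ∧
    ind 0 1 4 x = 1 ∧
    ind 0 2 3 x = 0 ∧
    ind 0 3 5 x = 0 ∧
    ind 0 4 5 x = 0 ∧
    ind 1 2 5 x = 0 ∧
    ind 1 3 4 x = 0 ∧
    ind 1 3 5 x = 0 ∧
    ind 2 3 4 x = 0 ∧
    ind 2 4 5 x = 0 := by
  refine ⟨?_, ?_, ?_, ?_, ?_, ?_, ?_, ?_, ?_, ?_⟩
  · exact ind_one (by norm_num) (by norm_num) (by unfold L; linarith)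
      (by unfold L; linarith) (by unfold L; linarith)
  · exact ind_one (by norm_num) (by norm_num) (by unfold L; linarith)
      (by unfold L; linarith) (by unfold L; linarith)
  · exact ind_zero1 (by norm_num) (by norm_num) (by unfold L; linarith)
  · exact ind_zero1 (by norm_num) (by norm_num) (by unfold L; linarith)
  · exact ind_zero1 (by norm_num) (by norm_num) (by unfold L; linarith)
  · exact ind_zero3 (by norm_num) (by norm_num) (by unfold L; linarith)
  · exact ind_zero3 (by norm_num) (by norm_num) (by unfold L; linarith)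
  · exact ind_zero3 (by norm_num) (by norm_num) (by unfold L; linarith)
  · exact ind_zero3 (by norm_num) (by norm_num) (by unfold L; linarith)
  · exact ind_zero3 (by norm_num) (by norm_num) (by unfold L; linarith)

theorem bx2 {x : E 2} (a1 : 3 / 2 - 1 / 20 < x 0) (a2 : x 0 < 3 / 2 + 1 / 20)
    (b1 : 31 / 6 - 1 / 20 < x 1) (b2 : x 1 < 31 / 6 + 1 / 20) :
    ind 0 1 2 x = 0 ∧
    ind 0 1 4 x = 1 ∧
    ind 0 2 3 x = 0 ∧
    ind 0 3 5 x = 1 ∧
    ind 0 4 5 x = 0 ∧
    ind 1 2 5 x = 0 ∧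
    ind 1 3 4 x = 0 ∧
    ind 1 3 5 x = 0 ∧
    ind 2 3 4 x = 0 ∧
    ind 2 4 5 x = 0 := by
  refine ⟨?_, ?_, ?_, ?_, ?_, ?_, ?_, ?_, ?_, ?_⟩
  · exact ind_zero3 (by norm_num) (by norm_num) (by unfold L; linarith)
  · exact ind_one (by norm_num) (by norm_num) (by unfold L; linarith)
      (by unfold L; linarith) (by unfold L; linarith)
  · exact ind_zero3 (by norm_num) (by norm_num) (by unfold L; linarith)
  · exact ind_one (by norm_num) (by norm_num) (by unfold L; linarith)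
      (by unfold L; linarith) (by unfold L; linarith)
  · exact ind_zero1 (by norm_num) (by norm_num) (by unfold L; linarith)
  · exact ind_zero3 (by norm_num) (by norm_num) (by unfold L; linarith)
  · exact ind_zero3 (by norm_num) (by norm_num) (by unfold L; linarith)
  · exact ind_zero3 (by norm_num) (by norm_num) (by unfold L; linarith)
  · exact ind_zero3 (by norm_num) (by norm_num) (by unfold L; linarith)
  · exact ind_zero3 (by norm_num) (by norm_num) (by unfold L; linarith)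

theorem bx3 {x : E 2} (a1 : 43 / 40 - 1 / 20 < x 0) (a2 : x 0 < 43 / 40 + 1 / 20)
    (b1 : 313 / 120 - 1 / 20 < x 1) (b2 : x 1 < 313 / 120 + 1 / 20) :
    ind 0 1 2 x = 0 ∧
    ind 0 1 4 x = 1 ∧
    ind 0 2 3 x = 1 ∧
    ind 0 3 5 x = 0 ∧
    ind 0 4 5 x = 0 ∧
    ind 1 2 5 x = 0 ∧
    ind 1 3 4 x = 0 ∧
    ind 1 3 5 x = 0 ∧
    ind 2 3 4 x = 0 ∧
    ind 2 4 5 x = 0 := by
  refine ⟨?_, ?_, ?_, ?_, ?_, ?_, ?_, ?_, ?_, ?_⟩
  · exact ind_zero3 (by norm_num) (by norm_num) (by unfold L; linarith)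
  · exact ind_one (by norm_num) (by norm_num) (by unfold L; linarith)
      (by unfold L; linarith) (by unfold L; linarith)
  · exact ind_one (by norm_num) (by norm_num) (by unfold L; linarith)
      (by unfold L; linarith) (by unfold L; linarith)
  · exact ind_zero1 (by norm_num) (by norm_num) (by unfold L; linarith)
  · exact ind_zero1 (by norm_num) (by norm_num) (by unfold L; linarith)
  · exact ind_zero3 (by norm_num) (by norm_num) (by unfold L; linarith)
  · exact ind_zero3 (by norm_num) (by norm_num) (by unfold L; linarith)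
  · exact ind_zero3 (by norm_num) (by norm_num) (by unfold L; linarith)
  · exact ind_zero3 (by norm_num) (by norm_num) (by unfold L; linarith)
  · exact ind_zero3 (by norm_num) (by norm_num) (by unfold L; linarith)

theorem bx4 {x : E 2} (a1 : 151 / 60 - 1 / 20 < x 0) (a2 : x 0 < 151 / 60 + 1 / 20)
    (b1 : 557 / 60 - 1 / 20 < x 1) (b2 : x 1 < 557 / 60 + 1 / 20) :
    ind 0 1 2 x = 0 ∧
    ind 0 1 4 x = 1 ∧
    ind 0 2 3 x = 0 ∧
    ind 0 3 5 x = 1 ∧
    ind 0 4 5 x = 0 ∧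
    ind 1 2 5 x = 1 ∧
    ind 1 3 4 x = 0 ∧
    ind 1 3 5 x = 1 ∧
    ind 2 3 4 x = 0 ∧
    ind 2 4 5 x = 0 := by
  refine ⟨?_, ?_, ?_, ?_, ?_, ?_, ?_, ?_, ?_, ?_⟩
  · exact ind_zero3 (by norm_num) (by norm_num) (by unfold L; linarith)
  · exact ind_one (by norm_num) (by norm_num) (by unfold L; linarith)
      (by unfold L; linarith) (by unfold L; linarith)
  · exact ind_zero3 (by norm_num) (by norm_num) (by unfold L; linarith)
  · exact ind_one (by norm_num) (by norm_num) (by unfold L; linarith)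
      (by unfold L; linarith) (by unfold L; linarith)
  · exact ind_zero1 (by norm_num) (by norm_num) (by unfold L; linarith)
  · exact ind_one (by norm_num) (by norm_num) (by unfold L; linarith)
      (by unfold L; linarith) (by unfold L; linarith)
  · exact ind_zero3 (by norm_num) (by norm_num) (by unfold L; linarith)
  · exact ind_one (by norm_num) (by norm_num) (by unfold L; linarith)
      (by unfold L; linarith) (by unfold L; linarith)
  · exact ind_zero3 (by norm_num) (by norm_num) (by unfold L; linarith)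
  · exact ind_zero3 (by norm_num) (by norm_num) (by unfold L; linarith)

theorem bx5 {x : E 2} (a1 : 21 / 10 - 1 / 20 < x 0) (a2 : x 0 < 21 / 10 + 1 / 20)
    (b1 : 59 / 10 - 1 / 20 < x 1) (b2 : x 1 < 59 / 10 + 1 / 20) :
    ind 0 1 2 x = 0 ∧
    ind 0 1 4 x = 0 ∧
    ind 0 2 3 x = 1 ∧
    ind 0 3 5 x = 0 ∧
    ind 0 4 5 x = 0 ∧
    ind 1 2 5 x = 1 ∧
    ind 1 3 4 x = 1 ∧
    ind 1 3 5 x = 1 ∧
    ind 2 3 4 x = 0 ∧
    ind 2 4 5 x = 0 := by
  refine ⟨?_, ?_, ?_, ?_, ?_, ?_, ?_, ?_, ?_, ?_⟩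
  · exact ind_zero3 (by norm_num) (by norm_num) (by unfold L; linarith)
  · exact ind_zero2 (by norm_num) (by norm_num) (by unfold L; linarith)
  · exact ind_one (by norm_num) (by norm_num) (by unfold L; linarith)
      (by unfold L; linarith) (by unfold L; linarith)
  · exact ind_zero1 (by norm_num) (by norm_num) (by unfold L; linarith)
  · exact ind_zero1 (by norm_num) (by norm_num) (by unfold L; linarith)
  · exact ind_one (by norm_num) (by norm_num) (by unfold L; linarith)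
      (by unfold L; linarith) (by unfold L; linarith)
  · exact ind_one (by norm_num) (by norm_num) (by unfold L; linarith)
      (by unfold L; linarith) (by unfold L; linarith)
  · exact ind_one (by norm_num) (by norm_num) (by unfold L; linarith)
      (by unfold L; linarith) (by unfold L; linarith)
  · exact ind_zero3 (by norm_num) (by norm_num) (by unfold L; linarith)
  · exact ind_zero3 (by norm_num) (by norm_num) (by unfold L; linarith)

theorem bx6 {x : E 2} (a1 : 19 / 10 - 1 / 20 < x 0) (a2 : x 0 < 19 / 10 + 1 / 20)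
    (b1 : 613 / 150 - 1 / 20 < x 1) (b2 : x 1 < 613 / 150 + 1 / 20) :
    ind 0 1 2 x = 0 ∧
    ind 0 1 4 x = 0 ∧
    ind 0 2 3 x = 1 ∧
    ind 0 3 5 x = 0 ∧
    ind 0 4 5 x = 0 ∧
    ind 1 2 5 x = 1 ∧
    ind 1 3 4 x = 0 ∧
    ind 1 3 5 x = 0 ∧
    ind 2 3 4 x = 0 ∧
    ind 2 4 5 x = 0 := by
  refine ⟨?_, ?_, ?_, ?_, ?_, ?_, ?_, ?_, ?_, ?_⟩
  · exact ind_zero3 (by norm_num) (by norm_num) (by unfold L; linarith)
  · exact ind_zero2 (by norm_num) (by norm_num) (by unfold L; linarith)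
  · exact ind_one (by norm_num) (by norm_num) (by unfold L; linarith)
      (by unfold L; linarith) (by unfold L; linarith)
  · exact ind_zero1 (by norm_num) (by norm_num) (by unfold L; linarith)
  · exact ind_zero1 (by norm_num) (by norm_num) (by unfold L; linarith)
  · exact ind_one (by norm_num) (by norm_num) (by unfold L; linarith)
      (by unfold L; linarith) (by unfold L; linarith)
  · exact ind_zero1 (by norm_num) (by norm_num) (by unfold L; linarith)
  · exact ind_zero1 (by norm_num) (by norm_num) (by unfold L; linarith)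
  · exact ind_zero3 (by norm_num) (by norm_num) (by unfold L; linarith)
  · exact ind_zero3 (by norm_num) (by norm_num) (by unfold L; linarith)

theorem bx7 {x : E 2} (a1 : 443 / 120 - 1 / 20 < x 0) (a2 : x 0 < 443 / 120 + 1 / 20)
    (b1 : 1142 / 75 - 1 / 20 < x 1) (b2 : x 1 < 1142 / 75 + 1 / 20) :
    ind 0 1 2 x = 0 ∧
    ind 0 1 4 x = 0 ∧
    ind 0 2 3 x = 0 ∧
    ind 0 3 5 x = 1 ∧
    ind 0 4 5 x = 1 ∧
    ind 1 2 5 x = 0 ∧
    ind 1 3 4 x = 0 ∧
    ind 1 3 5 x = 1 ∧
    ind 2 3 4 x = 0 ∧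
    ind 2 4 5 x = 1 := by
  refine ⟨?_, ?_, ?_, ?_, ?_, ?_, ?_, ?_, ?_, ?_⟩
  · exact ind_zero3 (by norm_num) (by norm_num) (by unfold L; linarith)
  · exact ind_zero3 (by norm_num) (by norm_num) (by unfold L; linarith)
  · exact ind_zero3 (by norm_num) (by norm_num) (by unfold L; linarith)
  · exact ind_one (by norm_num) (by norm_num) (by unfold L; linarith)
      (by unfold L; linarith) (by unfold L; linarith)
  · exact ind_one (by norm_num) (by norm_num) (by unfold L; linarith)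
      (by unfold L; linarith) (by unfold L; linarith)
  · exact ind_zero2 (by norm_num) (by norm_num) (by unfold L; linarith)
  · exact ind_zero3 (by norm_num) (by norm_num) (by unfold L; linarith)
  · exact ind_one (by norm_num) (by norm_num) (by unfold L; linarith)
      (by unfold L; linarith) (by unfold L; linarith)
  · exact ind_zero3 (by norm_num) (by norm_num) (by unfold L; linarith)
  · exact ind_one (by norm_num) (by norm_num) (by unfold L; linarith)
      (by unfold L; linarith) (by unfold L; linarith)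

theorem bx8 {x : E 2} (a1 : 44 / 15 - 1 / 20 < x 0) (a2 : x 0 < 44 / 15 + 1 / 20)
    (b1 : 136 / 15 - 1 / 20 < x 1) (b2 : x 1 < 136 / 15 + 1 / 20) :
    ind 0 1 2 x = 0 ∧
    ind 0 1 4 x = 0 ∧
    ind 0 2 3 x = 0 ∧
    ind 0 3 5 x = 1 ∧
    ind 0 4 5 x = 0 ∧
    ind 1 2 5 x = 0 ∧
    ind 1 3 4 x = 1 ∧
    ind 1 3 5 x = 1 ∧
    ind 2 3 4 x = 1 ∧
    ind 2 4 5 x = 0 := by
  refine ⟨?_, ?_, ?_, ?_, ?_, ?_, ?_, ?_, ?_, ?_⟩
  · exact ind_zero3 (by norm_num) (by norm_num) (by unfold L; linarith)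
  · exact ind_zero2 (by norm_num) (by norm_num) (by unfold L; linarith)
  · exact ind_zero3 (by norm_num) (by norm_num) (by unfold L; linarith)
  · exact ind_one (by norm_num) (by norm_num) (by unfold L; linarith)
      (by unfold L; linarith) (by unfold L; linarith)
  · exact ind_zero1 (by norm_num) (by norm_num) (by unfold L; linarith)
  · exact ind_zero2 (by norm_num) (by norm_num) (by unfold L; linarith)
  · exact ind_one (by norm_num) (by norm_num) (by unfold L; linarith)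
      (by unfold L; linarith) (by unfold L; linarith)
  · exact ind_one (by norm_num) (by norm_num) (by unfold L; linarith)
      (by unfold L; linarith) (by unfold L; linarith)
  · exact ind_one (by norm_num) (by norm_num) (by unfold L; linarith)
      (by unfold L; linarith) (by unfold L; linarith)
  · exact ind_zero1 (by norm_num) (by norm_num) (by unfold L; linarith)

theorem bx9 {x : E 2} (a1 : 119 / 30 - 1 / 20 < x 0) (a2 : x 0 < 119 / 30 + 1 / 20)
    (b1 : 14617 / 900 - 1 / 20 < x 1) (b2 : x 1 < 14617 / 900 + 1 / 20) :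
    ind 0 1 2 x = 0 ∧
    ind 0 1 4 x = 0 ∧
    ind 0 2 3 x = 0 ∧
    ind 0 3 5 x = 0 ∧
    ind 0 4 5 x = 1 ∧
    ind 1 2 5 x = 0 ∧
    ind 1 3 4 x = 0 ∧
    ind 1 3 5 x = 0 ∧
    ind 2 3 4 x = 0 ∧
    ind 2 4 5 x = 1 := by
  refine ⟨?_, ?_, ?_, ?_, ?_, ?_, ?_, ?_, ?_, ?_⟩
  · exact ind_zero3 (by norm_num) (by norm_num) (by unfold L; linarith)
  · exact ind_zero3 (by norm_num) (by norm_num) (by unfold L; linarith)
  · exact ind_zero3 (by norm_num) (by norm_num) (by unfold L; linarith)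
  · exact ind_zero2 (by norm_num) (by norm_num) (by unfold L; linarith)
  · exact ind_one (by norm_num) (by norm_num) (by unfold L; linarith)
      (by unfold L; linarith) (by unfold L; linarith)
  · exact ind_zero2 (by norm_num) (by norm_num) (by unfold L; linarith)
  · exact ind_zero3 (by norm_num) (by norm_num) (by unfold L; linarith)
  · exact ind_zero2 (by norm_num) (by norm_num) (by unfold L; linarith)
  · exact ind_zero3 (by norm_num) (by norm_num) (by unfold L; linarith)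
  · exact ind_one (by norm_num) (by norm_num) (by unfold L; linarith)
      (by unfold L; linarith) (by unfold L; linarith)

theorem li : LinearIndependent ℝ (fun n : Fin 10 => simplexMeasure (R10 n)) := by
  rw [Fintype.linearIndependent_iff]
  intro g hg
  have hae := hae_of g hg
  have e0 : g 3 + g 4 = 0 := by
    obtain ⟨x, ⟨a1, a2⟩, ⟨b1, b2⟩, hx⟩ := box_ae hae (11 / 5) (49 / 5)
    obtain ⟨z0, z1, z2, z3, z4, z5, z6, z7, z8, z9⟩ := bx0 a1 a2 b1 b2
    rw [z0, z1, z2, z3, z4, z5, z6, z7, z8, z9] at hx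
    linear_combination hx
  have e1 : g 0 + g 1 = 0 := by
    obtain ⟨x, ⟨a1, a2⟩, ⟨b1, b2⟩, hx⟩ := box_ae hae (5 / 6) (7 / 6)
    obtain ⟨z0, z1, z2, z3, z4, z5, z6, z7, z8, z9⟩ := bx1 a1 a2 b1 b2
    rw [z0, z1, z2, z3, z4, z5, z6, z7, z8, z9] at hx
    linear_combination hx
  have e2 : g 1 + g 3 = 0 := by
    obtain ⟨x, ⟨a1, a2⟩, ⟨b1, b2⟩, hx⟩ := box_ae hae (3 / 2) (31 / 6)
    obtain ⟨z0, z1, z2, z3, z4, z5, z6, z7, z8, z9⟩ := bx2 a1 a2 b1 b2
    rw [z0, z1, z2, z3, z4, z5, z6, z7, z8, z9] at hx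
    linear_combination hx
  have e3 : g 1 + g 2 = 0 := by
    obtain ⟨x, ⟨a1, a2⟩, ⟨b1, b2⟩, hx⟩ := box_ae hae (43 / 40) (313 / 120)
    obtain ⟨z0, z1, z2, z3, z4, z5, z6, z7, z8, z9⟩ := bx3 a1 a2 b1 b2
    rw [z0, z1, z2, z3, z4, z5, z6, z7, z8, z9] at hx
    linear_combination hx
  have e4 : g 1 + g 3 + g 5 + g 7 = 0 := by
    obtain ⟨x, ⟨a1, a2⟩, ⟨b1, b2⟩, hx⟩ := box_ae hae (151 / 60) (557 / 60)
    obtain ⟨z0, z1, z2, z3, z4, z5, z6, z7, z8, z9⟩ := bx4 a1 a2 b1 b2
    rw [z0, z1, z2, z3, z4, z5, z6, z7, z8, z9] at hx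
    linear_combination hx
  have e5 : g 2 + g 5 + g 6 + g 7 = 0 := by
    obtain ⟨x, ⟨a1, a2⟩, ⟨b1, b2⟩, hx⟩ := box_ae hae (21 / 10) (59 / 10)
    obtain ⟨z0, z1, z2, z3, z4, z5, z6, z7, z8, z9⟩ := bx5 a1 a2 b1 b2
    rw [z0, z1, z2, z3, z4, z5, z6, z7, z8, z9] at hx
    linear_combination hx
  have e6 : g 2 + g 5 = 0 := by
    obtain ⟨x, ⟨a1, a2⟩, ⟨b1, b2⟩, hx⟩ := box_ae hae (19 / 10) (613 / 150)
    obtain ⟨z0, z1, z2, z3, z4, z5, z6, z7, z8, z9⟩ := bx6 a1 a2 b1 b2
    rw [z0, z1, z2, z3, z4, z5, z6, z7, z8, z9] at hx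
    linear_combination hx
  have e7 : g 3 + g 4 + g 7 + g 9 = 0 := by
    obtain ⟨x, ⟨a1, a2⟩, ⟨b1, b2⟩, hx⟩ := box_ae hae (443 / 120) (1142 / 75)
    obtain ⟨z0, z1, z2, z3, z4, z5, z6, z7, z8, z9⟩ := bx7 a1 a2 b1 b2
    rw [z0, z1, z2, z3, z4, z5, z6, z7, z8, z9] at hx
    linear_combination hx
  have e8 : g 3 + g 6 + g 7 + g 8 = 0 := by
    obtain ⟨x, ⟨a1, a2⟩, ⟨b1, b2⟩, hx⟩ := box_ae hae (44 / 15) (136 / 15)
    obtain ⟨z0, z1, z2, z3, z4, z5, z6, z7, z8, z9⟩ := bx8 a1 a2 b1 b2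
    rw [z0, z1, z2, z3, z4, z5, z6, z7, z8, z9] at hx
    linear_combination hx
  have e9 : g 4 + g 9 = 0 := by
    obtain ⟨x, ⟨a1, a2⟩, ⟨b1, b2⟩, hx⟩ := box_ae hae (119 / 30) (14617 / 900)
    obtain ⟨z0, z1, z2, z3, z4, z5, z6, z7, z8, z9⟩ := bx9 a1 a2 b1 b2
    rw [z0, z1, z2, z3, z4, z5, z6, z7, z8, z9] at hx
    linear_combination hx
  clear hae hg
  intro n
  fin_cases n <;> simp only [Fin.zero_eta, Fin.mk_one, Fin.reduceFinMk] <;> linarith

end Pool.Agent.Work.MP_8bc176_co.Hex
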