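import Pool.Agent.Work.MP_8bc176_co.Gen

set_option autoImplicit false

namespace Pool.Agent.Work.MP_8bc176_co

open Classical

noncomputable def sg (x : ℝ) : ℤ := if 0 < x then 1 else -1

theorem swap_real {ι : Type*} (b : Finset ι) (y σ : ι → ℝ) (hpos : ∃ w ∈ b, 0 < σ w)
    (hy : ∀ w ∈ b, y w ≠ 0)
    (hgen : ∀ v ∈ b, ∀ w ∈ b, v ≠ w → σ v ≠ 0 → σ w ≠ 0 → y v * σ w ≠ y w * σ v) :
    (if ∀ w ∈ b, 0 < y w then (1 : ℝ) else 0) =
      ∑ v ∈ b.filter (fun v => σ v ≠ 0), (sg (σ v) : ℝ) *
        (if (0 < y v / σ v ∧ ∀ w ∈ b, w ≠ v → 0 < y w - σ w * (y v / σ v)) then 1 else 0) := by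
  set t : ι → ℝ := fun v => y v / σ v with ht
  set C : ι → Prop := fun v => 0 < t v ∧ ∀ w ∈ b, w ≠ v → 0 < y w - σ w * t v with hC
  have htne : ∀ v ∈ b, σ v ≠ 0 → t v ≠ 0 := fun v hv h => div_ne_zero (hy v hv) h
  have hty : ∀ v, σ v ≠ 0 → y v = σ v * t v := by
    intro v h; simp only [ht]; field_simp
  have htgen : ∀ v ∈ b, ∀ w ∈ b, v ≠ w → σ v ≠ 0 → σ w ≠ 0 → t v ≠ t w := by
    intro v hv w hw hne h1 h2 heq
    apply hgen v hv w hw hne h1 h2
    rw [hty v h1, hty w h2, heq]; ring
  let Pp := b.filter (fun v => 0 < σ v)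
  let Nn := b.filter (fun v => σ v < 0)
  have hsplit : b.filter (fun v => σ v ≠ 0) = Pp ∪ Nn := by
    ext v; simp only [Pp, Nn, Finset.mem_filter, Finset.mem_union]
    constructor
    · rintro ⟨h1, h2⟩
      rcases lt_or_gt_of_ne h2 with h | h
      · exact Or.inr ⟨h1, h⟩
      · exact Or.inl ⟨h1, h⟩
    · rintro (⟨h1, h2⟩ | ⟨h1, h2⟩)
      · exact ⟨h1, h2.ne'⟩
      · exact ⟨h1, h2.ne⟩
  have hdisj : Disjoint Pp Nn := by
    rw [Finset.disjoint_left]
    intro v hv hv'
    simp only [Pp, Nn, Finset.mem_filter] at hv hv'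
    linarith [hv.2, hv'.2]
  obtain ⟨p, hpP, hpmin⟩ := Finset.exists_min_image Pp t (by
    obtain ⟨w, hw, h⟩ := hpos; exact ⟨w, by simp [Pp, hw, h]⟩)
  simp only [Pp, Finset.mem_filter] at hpP
  obtain ⟨hpb, hpσ⟩ := hpP
  set Z : Prop := ∀ w ∈ b, σ w = 0 → 0 < y w with hZ
  have hmin : ∀ w ∈ b, 0 < σ w → w ≠ p → t p < t w := by
    intro w hw hσ hne
    exact lt_of_le_of_ne (hpmin w (by simp [Pp, hw, hσ])) (htgen p hpb w hw (Ne.symm hne) hpσ.ne' hσ.ne')
  -- sum over Pp
  have hPsum : ∑ v ∈ Pp, (sg (σ v) : ℝ) * (if C v then 1 else 0) = if C p then 1 else 0 := by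
    rw [Finset.sum_eq_single p]
    · simp [sg, hpσ]
    · intro v hv hne
      simp only [Pp, Finset.mem_filter] at hv
      rw [if_neg, mul_zero]
      rintro ⟨_, h⟩
      have h1 := h p hpb (Ne.symm hne)
      rw [hty p hpσ.ne', ← mul_sub] at h1
      have h2 := (mul_pos_iff_of_pos_left hpσ).1 h1
      have h3 := hmin v hv.1 hv.2 hne
      linarith
    · intro h; exact absurd (by simp [Pp, hpb, hpσ]) h
  have hCp : C p ↔ 0 < t p ∧ (∀ w ∈ b, σ w < 0 → t w < t p) ∧ Z := by
    constructor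
    · rintro ⟨h1, h2⟩
      refine ⟨h1, ?_, ?_⟩
      · intro w hw hσ
        have h3 := h2 w hw (by rintro rfl; linarith)
        rw [hty w hσ.ne, ← mul_sub] at h3
        have h4 := (mul_pos_iff.1 h3)
        rcases h4 with h4 | h4
        · linarith [h4.1]
        · linarith [h4.2]
      · intro w hw hσ
        have h3 := h2 w hw (by rintro rfl; linarith)
        rw [hσ, zero_mul, sub_zero] at h3
        exact h3
    · rintro ⟨h1, h2, h3⟩
      refine ⟨h1, ?_⟩
      intro w hw hne
      rcases lt_trichotomy (σ w) 0 with h | h | h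
      · rw [hty w h.ne, ← mul_sub]
        exact mul_pos_of_neg_of_neg h (by linarith [h2 w hw h])
      · rw [h, zero_mul, sub_zero]; exact h3 w hw h
      · rw [hty w h.ne', ← mul_sub]
        exact mul_pos h (by linarith [hmin w hw h hne])
  have hall : (∀ w ∈ b, 0 < y w) ↔ 0 < t p ∧ (∀ w ∈ b, σ w < 0 → t w < 0) ∧ Z := by
    constructor
    · intro h
      refine ⟨div_pos (h p hpb) hpσ, ?_, fun w hw _ => h w hw⟩
      intro w hw hσ
      exact div_neg_of_pos_of_neg (h w hw) hσ
    · rintro ⟨h1, h2, h3⟩ w hw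
      rcases lt_trichotomy (σ w) 0 with h | h | h
      · rw [hty w h.ne]; exact mul_pos_of_neg_of_neg h (h2 w hw h)
      · exact h3 w hw h
      · rw [hty w h.ne']
        by_cases hwp : w = p
        · subst hwp; exact mul_pos h h1
        · exact mul_pos h (by linarith [hmin w hw h hwp])
  have hgoal : (∑ v ∈ b.filter (fun v => σ v ≠ 0), (sg (σ v) : ℝ) * (if C v then 1 else 0)) =
      (if C p then 1 else 0) + ∑ v ∈ Nn, (sg (σ v) : ℝ) * (if C v then 1 else 0) := by
    rw [hsplit, Finset.sum_union hdisj, hPsum]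
  show (if ∀ w ∈ b, 0 < y w then (1 : ℝ) else 0) =
    ∑ v ∈ b.filter (fun v => σ v ≠ 0), (sg (σ v) : ℝ) * (if C v then 1 else 0)
  rw [hgoal]
  rcases Nn.eq_empty_or_nonempty with hN | hN
  · rw [hN, Finset.sum_empty, add_zero]
    have hno : ∀ w ∈ b, ¬ σ w < 0 := by
      intro w hw h
      have : w ∈ Nn := by simp [Nn, hw, h]
      rw [hN] at this; simp at this
    have hiff : (∀ w ∈ b, 0 < y w) ↔ C p := by
      rw [hall, hCp]
      constructor
      · rintro ⟨h1, _, h3⟩; exact ⟨h1, fun w hw h => absurd h (hno w hw), h3⟩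
      · rintro ⟨h1, _, h3⟩; exact ⟨h1, fun w hw h => absurd h (hno w hw), h3⟩
    by_cases h : C p
    · rw [if_pos h, if_pos (hiff.2 h)]
    · rw [if_neg h, if_neg (fun h' => h (hiff.1 h'))]
  · obtain ⟨q, hqN, hqmax⟩ := Finset.exists_max_image Nn t hN
    simp only [Nn, Finset.mem_filter] at hqN
    obtain ⟨hqb, hqσ⟩ := hqN
    have hpq : p ≠ q := by rintro rfl; linarith
    have hmax : ∀ w ∈ b, σ w < 0 → w ≠ q → t w < t q := by
      intro w hw hσ hne
      exact lt_of_le_of_ne (hqmax w (by simp [Nn, hw, hσ])) (htgen w hw q hqb hne hσ.ne hqσ.ne)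
    have hmax' : ∀ w ∈ b, σ w < 0 → t w ≤ t q := by
      intro w hw hσ; exact hqmax w (by simp [Nn, hw, hσ])
    have hNsum : ∑ v ∈ Nn, (sg (σ v) : ℝ) * (if C v then 1 else 0) = - if C q then 1 else 0 := by
      rw [Finset.sum_eq_single q]
      · have : ¬ 0 < σ q := by linarith
        simp only [sg, this, if_false]
        push_cast
        ring
      · intro v hv hne
        simp only [Nn, Finset.mem_filter] at hv
        rw [if_neg, mul_zero]
        rintro ⟨_, h⟩
        have h1 := h q hqb (Ne.symm hne)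
        rw [hty q hqσ.ne, ← mul_sub] at h1
        rcases mul_pos_iff.1 h1 with h4 | h4
        · linarith [h4.1]
        · have h3 := hmax v hv.1 hv.2 hne
          linarith [h4.2]
      · intro h; exact absurd (by simp [Nn, hqb, hqσ]) h
    have hCq : C q ↔ 0 < t q ∧ t q < t p ∧ Z := by
      constructor
      · rintro ⟨h1, h2⟩
        refine ⟨h1, ?_, ?_⟩
        · have h3 := h2 p hpb hpq
          rw [hty p hpσ.ne', ← mul_sub] at h3
          have := (mul_pos_iff_of_pos_left hpσ).1 h3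
          linarith
        · intro w hw hσ
          have h3 := h2 w hw (by rintro rfl; linarith)
          rw [hσ, zero_mul, sub_zero] at h3
          exact h3
      · rintro ⟨h1, h2, h3⟩
        refine ⟨h1, ?_⟩
        intro w hw hne
        rcases lt_trichotomy (σ w) 0 with h | h | h
        · rw [hty w h.ne, ← mul_sub]
          exact mul_pos_of_neg_of_neg h (by linarith [hmax w hw h hne])
        · rw [h, zero_mul, sub_zero]; exact h3 w hw h
        · rw [hty w h.ne', ← mul_sub]
          by_cases hwp : w = p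
          · subst hwp; exact mul_pos h (by linarith)
          · exact mul_pos h (by linarith [hmin w hw h hwp])
    have hCp' : C p ↔ 0 < t p ∧ t q < t p ∧ Z := by
      rw [hCp]
      constructor
      · rintro ⟨h1, h2, h3⟩; exact ⟨h1, h2 q hqb hqσ, h3⟩
      · rintro ⟨h1, h2, h3⟩; exact ⟨h1, fun w hw h => lt_of_le_of_lt (hmax' w hw h) h2, h3⟩
    have hall' : (∀ w ∈ b, 0 < y w) ↔ 0 < t p ∧ t q < 0 ∧ Z := by
      rw [hall]
      constructor
      · rintro ⟨h1, h2, h3⟩; exact ⟨h1, h2 q hqb hqσ, h3⟩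
      · rintro ⟨h1, h2, h3⟩; exact ⟨h1, fun w hw h => lt_of_le_of_lt (hmax' w hw h) h2, h3⟩
    have hq0 := htne q hqb hqσ.ne
    rw [hNsum]
    simp only [hCp', hCq, hall']
    by_cases hZ' : Z
    · simp only [hZ', and_true]
      rcases lt_or_gt_of_ne hq0 with h | h
      · have e1 : ¬ (0 < t q ∧ t q < t p) := fun h' => by linarith [h'.1]
        rw [if_neg e1]
        by_cases h1 : 0 < t p
        · rw [if_pos ⟨h1, h⟩, if_pos ⟨h1, by linarith⟩]; ring
        · rw [if_neg (fun h' => h1 h'.1), if_neg (fun h' => h1 h'.1)]; ring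
      · have e1 : ¬ (0 < t p ∧ t q < 0) := fun h' => by linarith [h'.2]
        rw [if_neg e1]
        by_cases h1 : t q < t p
        · rw [if_pos ⟨by linarith, h1⟩, if_pos ⟨h, h1⟩]; ring
        · rw [if_neg (fun h' => h1 h'.2), if_neg (fun h' => h1 h'.2)]; ring
    · simp only [hZ', and_false, if_false]
      ring

variable {V : Type*} [AddCommGroup V] [Module ℝ V]

theorem Bas.mem_cone_erase {b : Finset V} {W : Submodule ℝ V} (h : Bas b W) {v : V} (hv : v ∈ b)
    {x : V} (hx : x ∈ W) (h0 : du b v x = 0) :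
    x ∈ cone (b.erase v) ↔ ∀ w ∈ b, w ≠ v → 0 < du b w x := by
  constructor
  · rintro ⟨c, hc, rfl⟩ w hw hne
    rw [map_sum, Finset.sum_eq_single w]
    · rw [map_smul, h.du_self hw, smul_eq_mul, mul_one]
      exact hc w (by simp [hne, hw])
    · intro u hu hne'
      rw [map_smul, h.du_ne hw (Finset.mem_of_mem_erase hu) hne', smul_zero]
    · intro h'; exact absurd (Finset.mem_erase.2 ⟨hne, hw⟩) h'
  · intro h'
    refine ⟨fun w => du b w x, ?_, ?_⟩
    · intro w hw
      have := Finset.mem_erase.1 hw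
      exact h' w this.2 this.1
    · have := h.expand hx
      rw [← Finset.add_sum_erase _ _ hv, h0, zero_smul, zero_add] at this
      exact this

theorem Bas.mem_cone_swap {b : Finset V} {W : Submodule ℝ V} (h : Bas b W) {v : V} (hv : v ∈ b)
    {s y : V} (hs : s ∈ W) (hy : y ∈ W) (h0 : du b v s ≠ 0) :
    y ∈ cone (insert s (b.erase v)) ↔ 0 < du b v y / du b v s ∧
      ∀ w ∈ b, w ≠ v → 0 < du b w y - du b w s * (du b v y / du b v s) := by
  set c := du b v y / du b v s with hc
  have hx : y - c • s ∈ W := Submodule.sub_mem _ hy (Submodule.smul_mem _ _ hs)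
  have hx0 : du b v (y - c • s) = 0 := by
    rw [map_sub, map_smul, smul_eq_mul, hc]; field_simp; ring
  have hsH : s ∉ Submodule.span ℝ ((b.erase v : Finset V) : Set V) := by
    intro hmem
    exact h0 ((h.du_span hv hs).2 hmem)
  have hxH := (h.du_span hv hx).1 hx0
  have heq : y = c • s + (y - c • s) := by abel
  rw [heq, mem_cone_insert rfl hsH hxH, h.mem_cone_erase hv hx hx0]
  rw [← heq]
  apply and_congr_right
  intro _
  apply forall_congr'
  intro w
  apply imp_congr_right
  intro _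
  apply imp_congr_right
  intro _
  rw [map_sub, map_smul, smul_eq_mul, mul_comm]

theorem Bas.chi_swap {b : Finset V} {W : Submodule ℝ V} (h : Bas b W) {s : V} (hs : s ∈ W)
    (hpos : ∃ w ∈ b, 0 < du b w s) :
    Gen W (fun y => chi b y = ∑ v ∈ b.filter (fun v => du b v s ≠ 0),
      (sg (du b v s) : ℝ) * chi (insert s (b.erase v)) y) := by
  have g1 : Gen W (fun y => ∀ w ∈ b, du b w y ≠ 0) := by
    apply Gen.all
    intro w hw
    exact Gen.ker (du b w) (h.sub hw) (by rw [h.du_self hw]; exact one_ne_zero)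
  have g2 : Gen W (fun y => ∀ v ∈ b, ∀ w ∈ b, v ≠ w → du b v s ≠ 0 → du b w s ≠ 0 →
      du b v y * du b w s ≠ du b w y * du b v s) := by
    apply Gen.all
    intro v hv
    apply Gen.all
    intro w hw
    by_cases hcon : v ≠ w ∧ du b v s ≠ 0 ∧ du b w s ≠ 0
    · obtain ⟨hne, h1, h2⟩ := hcon
      refine (Gen.ker (du b w s • du b v - du b v s • du b w) (h.sub hv) ?_).mono ?_
      · simp only [LinearMap.sub_apply, LinearMap.smul_apply, smul_eq_mul]
        rw [h.du_self hv, h.du_ne hw hv hne]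
        simpa using h2
      · intro y _ h3 _ _ _ h4
        apply h3
        simp only [LinearMap.sub_apply, LinearMap.smul_apply, smul_eq_mul]
        linarith
    · refine Gen.of_forall ?_
      intro y _ h1 h2 h3
      exact absurd ⟨h1, h2, h3⟩ hcon
  refine (g1.and g2).mono ?_
  rintro y hy ⟨h1, h2⟩
  have key := swap_real b (fun w => du b w y) (fun w => du b w s) hpos h1 h2
  have e1 : chi b y = if ∀ w ∈ b, 0 < du b w y then (1 : ℝ) else 0 := by
    unfold chi
    congr 1
    rw [h.mem_cone hy]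
  rw [e1, key]
  apply Finset.sum_congr rfl
  intro v hv
  simp only [Finset.mem_filter] at hv
  congr 1
  unfold chi
  congr 1
  rw [h.mem_cone_swap hv.1 hs hy hv.2]

end Pool.Agent.Work.MP_8bc176_co
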