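import Pool.Agent.Work.MP_8bc176_co.Meas

set_option autoImplicit false

namespace Pool.Agent.Work.MP_8bc176_co

open Classical MeasureTheory Filter Topology

attribute [-instance] instDecidableEqProd

variable {d : ℕ}

theorem integrable_hull (D : Finset (E d)) :
    Integrable ((convexHull ℝ (D : Set (E d))).indicator (fun _ => (1 : ℝ))) volume := by
  have hc : IsCompact (convexHull ℝ (D : Set (E d))) := D.finite_toSet.isCompact_convexHull ℝ
  rw [integrable_indicator_iff hc.measurableSet]
  exact integrableOn_const (hs := hc.measure_lt_top.ne)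

/-- density of a combination of simplex measures -/
noncomputable def dens (B : Finset (Finset (E d))) (a : Finset (E d) → ℝ) (x : E d) : ℝ :=
  ∑ D ∈ B, a D * (convexHull ℝ (D : Set (E d))).indicator (fun _ => (1 : ℝ)) x

theorem integrable_dens (B : Finset (Finset (E d))) (a : Finset (E d) → ℝ) :
    Integrable (dens B a) volume := by
  unfold dens
  apply integrable_finset_sum
  intro D _
  exact (integrable_hull D).const_mul _

theorem withDensity_dens (B : Finset (Finset (E d))) (a : Finset (E d) → ℝ) :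
    (volume : Measure (E d)).withDensityᵥ (dens B a) = ∑ D ∈ B, a D • simplexMeasure D := by
  induction B using Finset.induction_on with
  | empty =>
    have : dens (∅ : Finset (Finset (E d))) a = 0 := by
      funext x; simp [dens]
    rw [this, withDensityᵥ_zero]; simp
  | insert D B hD ih =>
    rw [Finset.sum_insert hD, ← ih]
    have : dens (insert D B) a =
        (a D • (convexHull ℝ (D : Set (E d))).indicator (fun _ => (1 : ℝ))) + dens B a := by
      funext x
      simp [dens, Finset.sum_insert hD]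
    rw [this, withDensityᵥ_add ((integrable_hull D).smul _) (integrable_dens B a),
      withDensityᵥ_smul]
    rfl

theorem dens_ae {B : Finset (Finset (E d))} (hB : ∀ D ∈ B, IsSimplex D) (a : Finset (E d) → ℝ) :
    ∀ᵐ x : E d, dens B a x = ∑ D ∈ B, a D * chi (D.image up) (up x) := by
  have h1 : ∀ᵐ x : E d, ∀ D ∈ B, (convexHull ℝ (D : Set (E d))).indicator (fun _ => (1 : ℝ)) x =
      chi (D.image up) (up x) := by
    refine (ae_ball_iff (S := (B : Set (Finset (E d)))) B.countable_toSet).2 ?_
    intro D hD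
    exact (hB D hD).ae_eq
  filter_upwards [h1] with x hx
  unfold dens
  apply Finset.sum_congr rfl
  intro D hD
  rw [hx D hD]

theorem chi_comb_ae {B : Finset (Finset (E d × ℝ))} {D : Finset (E d)}
    (h : Comb ⊤ B (chi (D.image up))) : ∃ n : Finset (E d × ℝ) → ℤ,
    ∀ᵐ x : E d, chi (D.image up) (up x) = ∑ c ∈ B, (n c : ℝ) * chi c (up x) := by
  obtain ⟨n, hn⟩ := h
  exact ⟨n, hn.ae⟩

/-- The structure theorem: there is a finite family of simplices which is an integral basis. -/
theorem exists_simplex_basis (S : Finset (E d)) :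
    ∃ B : Finset (Finset (E d)), (∀ D ∈ B, IsSimplex D ∧ D ⊆ S) ∧
      (∀ D, IsSimplex D → D ⊆ S → ∃ n : Finset (E d) → ℤ, simplexMeasure D = ∑ C ∈ B, n C • simplexMeasure C) ∧
      (∀ a : Finset (E d) → ℝ, (∀ᵐ x : E d, ∃ m : ℤ, dens B a x = m) →
        ∀ C ∈ B, ∃ m : ℤ, a C = m) := by
  obtain ⟨B', hB'⟩ := exists_fam (LinearMap.snd ℝ (E d) ℝ) (S.image up) (by
    intro t ht
    obtain ⟨x, _, rfl⟩ := Finset.mem_image.1 ht
    simp [up]) (d + 1) ⊤ (by rw [finrank_top, finrank_prod])
  have hsx : ∀ c ∈ B', IsSimplex (c.image Prod.fst) ∧ c.image Prod.fst ⊆ S ∧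
      (c.image Prod.fst).image up = c := by
    intro c hc
    exact (hB'.mem c hc).2.simplex (hB'.mem c hc).1
  let B : Finset (Finset (E d)) := B'.image (fun c => c.image Prod.fst)
  have hinj : ∀ c ∈ B', ∀ c' ∈ B', c.image Prod.fst = c'.image Prod.fst → c = c' := by
    intro c hc c' hc' h
    rw [← (hsx c hc).2.2, ← (hsx c' hc').2.2, h]
  have hsum : ∀ (g : Finset (E d) → ℝ), ∑ C ∈ B, g C = ∑ c ∈ B', g (c.image Prod.fst) := by
    intro g
    exact Finset.sum_image (fun c hc c' hc' h => hinj c hc c' hc' h)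
  have hBs : ∀ D ∈ B, IsSimplex D := by
    intro D hD
    obtain ⟨c, hc, rfl⟩ := Finset.mem_image.1 hD
    exact (hsx c hc).1
  refine ⟨B, ?_, ?_, ?_⟩
  · intro D hD
    obtain ⟨c, hc, rfl⟩ := Finset.mem_image.1 hD
    exact ⟨(hsx c hc).1, (hsx c hc).2.1⟩
  · intro D hD hDS
    have h1 := hB'.gen (D.image up) (Finset.image_subset_image hDS) hD.bas
    obtain ⟨n, hn⟩ := chi_comb_ae h1
    refine ⟨fun C => n (C.image up), ?_⟩
    have h2 : ∀ᵐ x : E d, (convexHull ℝ (D : Set (E d))).indicator (fun _ => (1 : ℝ)) x =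
        dens B (fun C => (n (C.image up) : ℝ)) x := by
      filter_upwards [hn, hD.ae_eq, dens_ae hBs (fun C => (n (C.image up) : ℝ))] with x h3 h4 h5
      rw [h4, h3, h5, hsum]
      apply Finset.sum_congr rfl
      intro c hc
      rw [(hsx c hc).2.2]
    have h3 : simplexMeasure D = (volume : Measure (E d)).withDensityᵥ (dens B (fun C => (n (C.image up) : ℝ))) :=
      WithDensityᵥEq.congr_ae h2
    rw [h3, withDensity_dens]
    apply Finset.sum_congr rfl
    intro C _
    exact Int.cast_smul_eq_zsmul ℝ (n (C.image up)) (simplexMeasure C)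
  · intro a ha C hC
    obtain ⟨c, hc, rfl⟩ := Finset.mem_image.1 hC
    have h1 : ∀ᵐ x : E d, ∃ m : ℤ, ∑ c ∈ B', a (c.image Prod.fst) * chi c (up x) = m := by
      filter_upwards [ha, dens_ae hBs a] with x h3 h4
      obtain ⟨m, hm⟩ := h3
      refine ⟨m, ?_⟩
      rw [← hm, h4, hsum]
      apply Finset.sum_congr rfl
      intro c hc
      rw [(hsx c hc).2.2]
    have h2 := gen_of_ae (B := B') (fun b hb => (hB'.mem b hb).2) (by
      intro b hb v hv
      obtain ⟨x, _, rfl⟩ := Finset.mem_image.1 ((hB'.mem b hb).1 hv)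
      simp [up]) (fun c => a (c.image Prod.fst)) h1
    exact hB'.int (fun c => a (c.image Prod.fst)) h2 c hc

/-- a measure in the real span of simplex measures comes from a finite set of vertices -/
theorem exists_coeff {S : Set (E d)} {m : SignedMeasure (E d)}
    (hm : m ∈ Submodule.span ℝ (simplexMeasures S)) :
    ∃ (B : Finset (Finset (E d))) (a : Finset (E d) → ℝ),
      (∀ D ∈ B, IsSimplex D ∧ (D : Set (E d)) ⊆ S) ∧ m = ∑ D ∈ B, a D • simplexMeasure D := by
  have h1 : simplexMeasures S = simplexMeasure '' {D : Finset (E d) | IsSimplex D ∧ (D : Set (E d)) ⊆ S} := by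
    ext m; constructor
    · rintro ⟨D, h1, h2, rfl⟩; exact ⟨D, ⟨h1, h2⟩, rfl⟩
    · rintro ⟨D, ⟨h1, h2⟩, rfl⟩; exact ⟨D, h1, h2, rfl⟩
  rw [h1, Submodule.mem_span_image_iff_exists_fun] at hm
  obtain ⟨t, ht, c, hc⟩ := hm
  refine ⟨t, fun D => if h : D ∈ t then c ⟨D, h⟩ else 0, fun D hD => ht hD, ?_⟩
  rw [← hc, ← Finset.sum_coe_sort (s := t)]
  apply Finset.sum_congr rfl
  intro D _
  simp only [D.2, dite_true]

/-- **Main theorem.** Any set whose standard measure is in the real span is in the lattice. -/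
theorem mem_lattice {S : Set (E d)} {P : Set (E d)}
    (h : stdMeasure P ∈ Submodule.span ℝ (simplexMeasures S)) :
    stdMeasure P ∈ AddSubgroup.closure (simplexMeasures S) := by
  by_cases hint : Integrable (P.indicator (fun _ => (1 : ℝ))) (volume : Measure (E d))
  swap
  · have : stdMeasure P = 0 := by
      unfold stdMeasure Measure.withDensityᵥ
      rw [dif_neg hint]
    rw [this]; exact AddSubgroup.zero_mem _
  obtain ⟨B, a, hB, hm⟩ := exists_coeff h
  rw [← withDensity_dens] at hm
  have hae : P.indicator (fun _ => (1 : ℝ)) =ᵐ[volume] dens B a :=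
    hint.ae_eq_of_withDensityᵥ_eq (integrable_dens B a) hm
  -- the finite vertex set
  let S0 : Finset (E d) := B.biUnion id
  have hS0 : (S0 : Set (E d)) ⊆ S := by
    intro x hx
    simp only [S0, Finset.coe_biUnion, Set.mem_iUnion] at hx
    obtain ⟨D, hD, hx⟩ := hx
    exact (hB D hD).2 hx
  obtain ⟨C, hC1, hC2, hC3⟩ := exists_simplex_basis S0
  have hn : ∀ D : Finset (E d), ∃ n : Finset (E d) → ℤ, D ∈ B → simplexMeasure D = ∑ K ∈ C, n K • simplexMeasure K := by
    intro D
    by_cases hD : D ∈ B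
    · obtain ⟨n, hn⟩ := hC2 D (hB D hD).1 (by
        intro x hx
        simp only [S0, Finset.mem_biUnion, id]
        exact ⟨D, hD, hx⟩)
      exact ⟨n, fun _ => hn⟩
    · exact ⟨fun _ => 0, fun h => absurd h hD⟩
  choose n hn using hn
  let c : Finset (E d) → ℝ := fun K => ∑ D ∈ B, a D * (n D K : ℝ)
  have heq : stdMeasure P = ∑ K ∈ C, c K • simplexMeasure K := by
    show (volume : Measure (E d)).withDensityᵥ (P.indicator (fun _ => (1 : ℝ))) = _
    have : stdMeasure P = ∑ D ∈ B, a D • simplexMeasure D := by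
      rw [← withDensity_dens]; exact hm
    have h2 : ∑ D ∈ B, a D • simplexMeasure D = ∑ D ∈ B, ∑ K ∈ C, (a D * (n D K : ℝ)) • simplexMeasure K := by
      apply Finset.sum_congr rfl
      intro D hD
      rw [hn D hD, Finset.smul_sum]
      apply Finset.sum_congr rfl
      intro K _
      rw [← Int.cast_smul_eq_zsmul ℝ, smul_smul]
    have h3 : stdMeasure P = ∑ K ∈ C, c K • simplexMeasure K := by
      rw [this, h2, Finset.sum_comm]
      apply Finset.sum_congr rfl
      intro K _
      rw [← Finset.sum_smul]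
    exact h3
  have hae2 : P.indicator (fun _ => (1 : ℝ)) =ᵐ[volume] dens C c := by
    apply hint.ae_eq_of_withDensityᵥ_eq (integrable_dens C c)
    rw [withDensity_dens]; exact heq
  have hInt := hC3 c (by
    filter_upwards [hae2] with x hx
    rw [← hx]
    by_cases hxP : x ∈ P
    · exact ⟨1, by rw [Set.indicator_of_mem hxP]; simp⟩
    · exact ⟨0, by rw [Set.indicator_of_notMem hxP]; simp⟩)
  rw [heq]
  apply AddSubgroup.sum_mem
  intro K hK
  obtain ⟨m, hm⟩ := hInt K hK
  rw [hm, Int.cast_smul_eq_zsmul ℝ m (simplexMeasure K)]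
  apply AddSubgroup.zsmul_mem
  apply AddSubgroup.subset_closure
  exact ⟨K, (hC1 K hK).1, (Finset.coe_subset.2 (hC1 K hK).2).trans hS0, rfl⟩

end Pool.Agent.Work.MP_8bc176_co
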