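import Pool.Agent.Work.MP_8bc176_co.Fam
import Pool.Agent.Work.MP_8bc176_co.Defs

set_option autoImplicit false

namespace Pool.Agent.Work.MP_8bc176_co

open Classical MeasureTheory Filter Topology

attribute [-instance] instDecidableEqProd

variable {d : ℕ}

def up (x : E d) : E d × ℝ := (x, 1)

theorem up_inj : Function.Injective (up : E d → E d × ℝ) := by
  intro x y h
  exact congrArg Prod.fst h

theorem null_sub (X : Submodule ℝ (E d × ℝ)) (hX : X ≠ ⊤) : volume {x : E d | up x ∈ X} = 0 := by
  let f : E d →ᵃ[ℝ] (E d × ℝ) := (LinearMap.inl ℝ (E d) ℝ).toAffineMap + AffineMap.const ℝ (E d) (0, 1)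
  have hf : ∀ x, f x = up x := by
    intro x; simp [f, up]
  let A : AffineSubspace ℝ (E d) := (X.toAffineSubspace).comap f
  have hA : ∀ x, x ∈ A ↔ up x ∈ X := by
    intro x
    simp only [A, AffineSubspace.mem_comap, Submodule.mem_toAffineSubspace, hf]
  have hne : A ≠ ⊤ := by
    intro htop
    apply hX
    have hall : ∀ x : E d, up x ∈ X := by
      intro x; rw [← hA, htop]; exact AffineSubspace.mem_top ℝ (E d) x
    rw [eq_top_iff]
    rintro ⟨x, t⟩ _
    have h1 : ((x, t) : E d × ℝ) = (up x - up 0) + t • up 0 := by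
      ext <;> simp [up]
    rw [h1]
    exact X.add_mem (X.sub_mem (hall x) (hall 0)) (X.smul_mem _ (hall 0))
  have := Measure.addHaar_affineSubspace (volume : Measure (E d)) A hne
  convert this using 2
  ext x
  exact (hA x).symm

theorem Gen.ae {p : E d × ℝ → Prop} (h : Gen ⊤ p) : ∀ᵐ x : E d, p (up x) := by
  obtain ⟨U, hU, h⟩ := h
  have h1 : ∀ᵐ x : E d, ∀ X ∈ U, up x ∉ X := by
    refine (ae_ball_iff (S := (U : Set (Submodule ℝ (E d × ℝ)))) U.countable_toSet).2 ?_
    intro X hX
    rw [ae_iff]
    simp only [not_not]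
    exact null_sub X (hU X hX).ne
  filter_upwards [h1] with x hx
  exact h _ trivial hx

theorem finrank_prod (d : ℕ) : Module.finrank ℝ (E d × ℝ) = d + 1 := by
  rw [Module.finrank_prod]; simp

theorem IsSimplex.bas {D : Finset (E d)} (h : IsSimplex D) : Bas (D.image up) ⊤ := by
  have hli : ∀ v ∈ D.image up, v ∉ Submodule.span ℝ (((D.image up).erase v : Finset _) : Set (E d × ℝ)) := by
    intro v hv hmem
    obtain ⟨x, hx, rfl⟩ := Finset.mem_image.1 hv
    have he : (D.image up).erase (up x) = (D.erase x).image up := by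
      rw [Finset.image_erase up_inj]
    rw [he, Finset.coe_image] at hmem
    rw [Submodule.mem_span_image_finset_iff_exists_fun'] at hmem
    obtain ⟨c, hc⟩ := hmem
    have h1 : ∑ y ∈ D.erase x, c y • y = x := by
      have := congrArg Prod.fst hc
      rw [Prod.fst_sum] at this
      simpa [up] using this
    have h2 : ∑ y ∈ D.erase x, c y = 1 := by
      have := congrArg Prod.snd hc
      rw [Prod.snd_sum] at this
      simpa [up] using this
    have h3 := affineIndependent_iff.1 h.2 Finset.univ
      (fun y => if (y : E d) = x then -1 else c y) ?_ ?_ ⟨x, hx⟩ (Finset.mem_univ _)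
    · simp at h3
    · rw [Finset.sum_coe_sort D (fun y => if y = x then (-1 : ℝ) else c y), ← Finset.add_sum_erase _ _ hx]
      simp only [if_true]
      rw [Finset.sum_congr rfl (g := fun y => c y)]
      · rw [h2]; ring
      · intro y hy; rw [if_neg (Finset.ne_of_mem_erase hy)]
    · rw [Finset.sum_coe_sort D (fun y => (if y = x then (-1 : ℝ) else c y) • y),
        ← Finset.add_sum_erase _ _ hx]
      simp only [if_true]
      rw [Finset.sum_congr rfl (g := fun y => c y • y)]
      · rw [h1]; simp
      · intro y hy; rw [if_neg (Finset.ne_of_mem_erase hy)]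
  have hB : Bas (D.image up) (Submodule.span ℝ ((D.image up : Finset _) : Set (E d × ℝ))) := ⟨hli, rfl⟩
  refine ⟨hli, ?_⟩
  apply Submodule.eq_top_of_finrank_eq
  rw [hB.finrank, Finset.card_image_of_injective _ up_inj, h.1, finrank_prod]

theorem Bas.simplex {c : Finset (E d × ℝ)} (h : Bas c ⊤) {S : Finset (E d)}
    (hS : c ⊆ S.image up) : IsSimplex (c.image Prod.fst) ∧ c.image Prod.fst ⊆ S ∧
      (c.image Prod.fst).image up = c := by
  have hl : ∀ v ∈ c, up v.1 = v ∧ v.1 ∈ S := by
    intro v hv
    obtain ⟨x, hx, rfl⟩ := Finset.mem_image.1 (hS hv)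
    exact ⟨rfl, hx⟩
  have h1 : (c.image Prod.fst).image up = c := by
    rw [Finset.image_image]
    ext v
    simp only [Finset.mem_image, Function.comp]
    constructor
    · rintro ⟨w, hw, rfl⟩; rw [(hl w hw).1]; exact hw
    · intro hv; exact ⟨v, hv, (hl v hv).1⟩
  refine ⟨⟨?_, ?_⟩, ?_, h1⟩
  · have h2 := congrArg Finset.card h1
    rw [Finset.card_image_of_injective _ up_inj] at h2
    rw [h2, ← h.finrank, finrank_top, finrank_prod]
  · rw [affineIndependent_iff]
    intro s w hw0 hw1 i hi
    have h2 : ∑ e ∈ s, w e • up (e : E d) = 0 := by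
      ext1
      · rw [Prod.fst_sum]; simpa [up] using hw1
      · rw [Prod.snd_sum]; simpa [up] using hw0
    have hmem : ∀ e : (c.image Prod.fst : Finset (E d)), up (e : E d) ∈ c := by
      intro e
      have : up (e : E d) ∈ (c.image Prod.fst).image up := Finset.mem_image_of_mem _ e.2
      rwa [h1] at this
    have h3 := congrArg (du c (up (i : E d))) h2
    rw [map_sum, map_zero, Finset.sum_eq_single i] at h3
    · rw [map_smul, h.du_self (hmem i), smul_eq_mul, mul_one] at h3
      exact h3
    · intro j _ hne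
      rw [map_smul, h.du_ne (hmem i) (hmem j) (fun h => hne (Subtype.ext (up_inj h))), smul_zero]
    · intro h; exact absurd hi h
  · intro x hx
    obtain ⟨v, hv, rfl⟩ := Finset.mem_image.1 hx
    exact (hl v hv).2

/-- the indicator of a simplex is almost everywhere the cone indicator -/
theorem IsSimplex.ae_eq {D : Finset (E d)} (h : IsSimplex D) :
    ∀ᵐ x : E d, (convexHull ℝ (D : Set (E d))).indicator (fun _ => (1 : ℝ)) x =
      chi (D.image up) (up x) := by
  have hB := h.bas
  have g1 : Gen (⊤ : Submodule ℝ (E d × ℝ)) (fun y => ∀ v ∈ D.image up, du (D.image up) v y ≠ 0) := by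
    apply Gen.all
    intro v hv
    exact Gen.ker _ (x := v) trivial (by rw [hB.du_self hv]; exact one_ne_zero)
  filter_upwards [g1.ae] with x hx
  have key : x ∈ convexHull ℝ (D : Set (E d)) ↔ up x ∈ cone (D.image up) := by
    rw [Finset.mem_convexHull']
    constructor
    · rintro ⟨w, hw0, hw1, hw2⟩
      have heq : up x = ∑ v ∈ D.image up, w v.1 • v := by
        rw [Finset.sum_image (fun a _ b _ hab => up_inj hab)]
        ext1
        · rw [Prod.fst_sum]; simp only [up, Prod.smul_fst]; exact hw2.symm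
        · rw [Prod.snd_sum]; simp only [up, Prod.smul_snd, smul_eq_mul, mul_one]; exact hw1.symm
      refine ⟨fun v => w v.1, ?_, heq⟩
      intro v hv
      have h2 := hx v hv
      rw [heq, hB.du_sum hv (fun v => w v.1)] at h2
      obtain ⟨z, hz, rfl⟩ := Finset.mem_image.1 hv
      exact lt_of_le_of_ne (hw0 z hz) (Ne.symm h2)
    · rintro ⟨c, hc, heq⟩
      rw [Finset.sum_image (fun a _ b _ hab => up_inj hab)] at heq
      refine ⟨fun y => c (up y), ?_, ?_, ?_⟩
      · intro y hy
        exact (hc _ (Finset.mem_image_of_mem _ hy)).le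
      · have := congrArg Prod.snd heq
        rw [Prod.snd_sum] at this
        simpa [up] using this.symm
      · have := congrArg Prod.fst heq
        rw [Prod.fst_sum] at this
        simpa [up] using this.symm
  unfold chi
  by_cases hmem : x ∈ convexHull ℝ (D : Set (E d))
  · rw [Set.indicator_of_mem hmem, if_pos (key.1 hmem)]
  · rw [Set.indicator_of_notMem hmem, if_neg (fun h => hmem (key.2 h))]

theorem chi_smul {b : Finset (E d × ℝ)} {y : E d × ℝ} {t : ℝ} (ht : 0 < t) :
    chi b (t • y) = chi b y := by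
  have key : ∀ (s : ℝ) (z : E d × ℝ), 0 < s → z ∈ cone b → s • z ∈ cone b := by
    rintro s z hs ⟨c, hc, rfl⟩
    refine ⟨fun v => s * c v, fun v hv => mul_pos hs (hc v hv), ?_⟩
    rw [Finset.smul_sum]
    apply Finset.sum_congr rfl
    intro v _
    rw [smul_smul]
  unfold chi
  congr 1
  apply propext
  constructor
  · intro h
    have := key t⁻¹ _ (inv_pos.2 ht) h
    rwa [smul_smul, inv_mul_cancel₀ ht.ne', one_smul] at this
  · exact key t y ht

/-- almost everywhere integrality on the slice gives generic integrality -/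
theorem gen_of_ae {B : Finset (Finset (E d × ℝ))} (hB : ∀ b ∈ B, Bas b ⊤)
    (hpos : ∀ b ∈ B, ∀ v ∈ b, 0 < v.2) (a : Finset (E d × ℝ) → ℝ)
    (h : ∀ᵐ x : E d, ∃ m : ℤ, ∑ c ∈ B, a c * chi c (up x) = m) :
    Gen ⊤ (fun y => ∃ m : ℤ, ∑ c ∈ B, a c * chi c y = m) := by
  have g1 : Gen (⊤ : Submodule ℝ (E d × ℝ)) (fun y => ∀ b ∈ B, ∀ v ∈ b, du b v y ≠ 0) := by
    apply Gen.all
    intro b hb
    apply Gen.all
    intro v hv
    exact Gen.ker _ (x := v) trivial (by rw [(hB b hb).du_self hv]; exact one_ne_zero)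
  refine g1.mono ?_
  intro y _ hy
  by_cases hy2 : 0 < y.2
  swap
  · refine ⟨0, ?_⟩
    rw [Int.cast_zero]
    apply Finset.sum_eq_zero
    intro b hb
    rw [mul_eq_zero]
    right
    unfold chi
    rw [if_neg]
    rintro ⟨c, hc, heq⟩
    apply hy2
    rw [heq, Prod.snd_sum]
    have hne : b.Nonempty := by
      rw [← Finset.card_pos, ← (hB b hb).finrank, finrank_top, finrank_prod]
      omega
    apply Finset.sum_pos _ hne
    intro v hv
    rw [Prod.smul_snd, smul_eq_mul]
    exact mul_pos (hc v hv) (hpos b hb v hv)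
  -- move to the slice
  set x0 : E d := (y.2)⁻¹ • y.1 with hx0
  have hyx : y = y.2 • up x0 := by
    ext1
    · simp only [up, Prod.smul_fst, hx0, smul_smul]
      rw [mul_inv_cancel₀ hy2.ne', one_smul]
    · simp [up]
  have hdu : ∀ b ∈ B, ∀ v ∈ b, du b v (up x0) ≠ 0 := by
    intro b hb v hv h0
    apply hy b hb v hv
    rw [hyx, map_smul, h0, smul_zero]
  have hev : ∀ᶠ x in 𝓝 x0, ∀ b ∈ B, ∀ v ∈ b, (0 < du b v (up x) ↔ 0 < du b v (up x0)) := by
    rw [Filter.eventually_all_finset]
    intro b hb
    rw [Filter.eventually_all_finset]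
    intro v hv
    have hcont : Continuous (fun x : E d => du b v (up x)) := by
      have h1 : Continuous (du b v) := LinearMap.continuous_of_finiteDimensional _
      exact h1.comp (by unfold up; fun_prop)
    have ht := hcont.tendsto x0
    rcases lt_or_gt_of_ne (hdu b hb v hv) with h1 | h1
    · filter_upwards [ht.eventually (gt_mem_nhds h1)] with x hx
      exact ⟨fun h' => by linarith, fun h' => by linarith⟩
    · filter_upwards [ht.eventually (lt_mem_nhds h1)] with x hx
      exact ⟨fun _ => h1, fun _ => hx⟩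
  have hdense := Measure.dense_of_ae h
  obtain ⟨x, hx1, hx2⟩ := hdense.inter_nhds_nonempty hev
  obtain ⟨m, hm⟩ := hx1
  refine ⟨m, ?_⟩
  rw [← hm]
  apply Finset.sum_congr rfl
  intro b hb
  congr 1
  rw [hyx, chi_smul hy2]
  unfold chi
  congr 1
  rw [(hB b hb).mem_cone trivial, (hB b hb).mem_cone trivial]
  apply propext
  exact forall₂_congr (fun v hv => (hx2 b hb v hv).symm)

end Pool.Agent.Work.MP_8bc176_co
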